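import Pool.Agent.TH967.MC.Snake

set_option autoImplicit false

namespace Pool.Agent.TH967.MC

/-- `e` joins `u` and `v` -/
def Joins {d : ℕ} (e : Edge d) (u v : Fin d → ℤ) : Prop :=
  (u = e.1 ∧ v = e.1 + Pi.single e.2 1) ∨ (v = e.1 ∧ u = e.1 + Pi.single e.2 1)

theorem adj_iff {d : ℕ} (ω : Edge d → Bool) (u v : Fin d → ℤ) :
    Adj ω u v ↔ ∃ e, Joins e u v ∧ ω e = true := by
  constructor
  · rintro ⟨i, ⟨h1, h2⟩ | ⟨h1, h2⟩⟩
    · exact ⟨(u, i), Or.inl ⟨rfl, h2⟩, h1⟩
    · exact ⟨(v, i), Or.inr ⟨rfl, h2⟩, h1⟩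
  · rintro ⟨⟨w, i⟩, ⟨h1, h2⟩ | ⟨h1, h2⟩, h3⟩
    · simp only at h1 h2
      subst h1
      exact ⟨i, Or.inl ⟨h3, h2⟩⟩
    · simp only at h1 h2
      subst h1
      exact ⟨i, Or.inr ⟨h3, h2⟩⟩

theorem nbr_joins {d : ℕ} {u v : Fin d → ℤ} (h : Nbr u v) : ∃ e, Joins e u v := by
  obtain ⟨i, h | h⟩ := h
  · exact ⟨(u, i), Or.inl ⟨rfl, h⟩⟩
  · exact ⟨(v, i), Or.inr ⟨rfl, h⟩⟩

theorem Joins.symm {d : ℕ} {e : Edge d} {u v : Fin d → ℤ} (h : Joins e u v) : Joins e v u := by
  rcases h with h | h
  · exact Or.inr h
  · exact Or.inl h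

/-- two pairs joined by the same edge agree -/
theorem Joins.eq {d : ℕ} {e : Edge d} {u v u' v' : Fin d → ℤ} (h : Joins e u v)
    (h' : Joins e u' v') : (u = u' ∧ v = v') ∨ (u = v' ∧ v = u') := by
  rcases h with ⟨h1, h2⟩ | ⟨h1, h2⟩ <;> rcases h' with ⟨h3, h4⟩ | ⟨h3, h4⟩
  · left; rw [h1, h2, h3, h4]; exact ⟨rfl, rfl⟩
  · right; rw [h1, h2, h3, h4]; exact ⟨rfl, rfl⟩
  · right; rw [h1, h2, h3, h4]; exact ⟨rfl, rfl⟩
  · left; rw [h1, h2, h3, h4]; exact ⟨rfl, rfl⟩

/-- the box `[0, s)^d` -/
def InBox {d : ℕ} (s : ℕ) (v : Fin d → ℤ) : Prop := ∀ i, 0 ≤ v i ∧ v i < s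

/-- the edges with at least one end in the box -/
noncomputable def boxE (d s : ℕ) : Finset (Edge d) :=
  Finset.univ.biUnion fun i : Fin d =>
    (Fintype.piFinset (fun j : Fin d => if j = i then Finset.Ico (-1 : ℤ) s else Finset.Ico 0 (s : ℤ))).image
      (fun v => ((v, i) : Edge d))

theorem mem_boxE {d s : ℕ} (hs : 1 ≤ s) (e : Edge d) :
    e ∈ boxE d s ↔ InBox s e.1 ∨ InBox s (e.1 + Pi.single e.2 1) := by
  obtain ⟨v, i⟩ := e
  unfold boxE
  simp only [Finset.mem_biUnion, Finset.mem_univ, true_and, Finset.mem_image, Fintype.mem_piFinset,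
    Prod.mk.injEq]
  constructor
  · rintro ⟨j, w, h1, rfl, rfl⟩
    have h2 := h1 j
    simp only [if_true, Finset.mem_Ico] at h2
    have h3 : ∀ k, k ≠ j → 0 ≤ w k ∧ w k < s := by
      intro k hk
      have := h1 k
      simpa only [hk, if_false, Finset.mem_Ico] using this
    rcases eq_or_lt_of_le h2.1 with h4 | h4
    · right
      intro k
      by_cases hk : k = j
      · subst hk
        simp only [Pi.add_apply, Pi.single_eq_same, ← h4]
        constructor
        · norm_num
        · have : (1 : ℤ) ≤ s := by exact_mod_cast hs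
          linarith
      · simp only [Pi.add_apply, Pi.single_eq_of_ne hk, add_zero]
        exact h3 k hk
    · left
      intro k
      by_cases hk : k = j
      · subst hk
        exact ⟨by omega, h2.2⟩
      · exact h3 k hk
  · intro h
    refine ⟨i, v, ?_, rfl, rfl⟩
    intro k
    rcases h with h | h
    · have := h k
      split_ifs <;> simp only [Finset.mem_Ico] <;> omega
    · have := h k
      by_cases hk : k = i
      · subst hk
        simp only [Pi.add_apply, Pi.single_eq_same] at this
        simp only [if_true, Finset.mem_Ico]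
        omega
      · simp only [Pi.add_apply, Pi.single_eq_of_ne hk, add_zero] at this
        simp only [hk, if_false, Finset.mem_Ico]
        omega

theorem card_boxE (d s : ℕ) : (boxE (d + 1) s).card = (d + 1) * ((s + 1) * s ^ d) := by
  unfold boxE
  rw [Finset.card_biUnion]
  · rw [Finset.sum_congr rfl (g := fun _ => (s + 1) * s ^ d)]
    · simp
    · intro i _
      rw [Finset.card_image_of_injective _ (fun _ _ h => (Prod.mk.inj h).1), Fintype.card_piFinset]
      have : ∀ j : Fin (d + 1), (if j = i then Finset.Ico (-1 : ℤ) s else Finset.Ico 0 (s : ℤ)).card =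
          if j = i then s + 1 else s := by
        intro j
        split_ifs
        · rw [Int.card_Ico]; omega
        · rw [Int.card_Ico]; omega
      simp only [this]
      rw [Finset.prod_ite]
      have h1 : (Finset.univ.filter (fun j : Fin (d + 1) => j = i)).card = 1 := by
        simp [Finset.filter_eq']
      have h2 : (Finset.univ.filter (fun j : Fin (d + 1) => ¬ j = i)).card = d := by
        have := Finset.card_filter_add_card_filter_not (s := (Finset.univ : Finset (Fin (d + 1)))) (fun j => j = i)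
        rw [h1] at this
        simp only [Finset.card_univ, Fintype.card_fin] at this
        omega
      rw [Finset.prod_const, Finset.prod_const, h1, h2, pow_one]
  · intro i _ j _ hij
    simp only [Function.onFun]
    rw [Finset.disjoint_left]
    intro e h1 h2
    simp only [Finset.mem_image] at h1 h2
    obtain ⟨v, _, rfl⟩ := h1
    obtain ⟨w, _, h3⟩ := h2
    exact hij (Prod.mk.inj h3).2.symm

/-- a Hamiltonian path of the box together with an exit edge: the edges -/
theorem exists_path (d s : ℕ) (hs : 1 ≤ s) : ∃ (γ : ℕ → (Fin (d + 1) → ℤ)) (ε : ℕ → Edge (d + 1)),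
    γ 0 = 0 ∧ (∀ k < s ^ (d + 1), InBox s (γ k)) ∧ γ (s ^ (d + 1)) 0 = s ∧
    (∀ k ≤ s ^ (d + 1), ∀ l ≤ s ^ (d + 1), γ k = γ l → k = l) ∧
    (∀ v, InBox s v → ∃ k < s ^ (d + 1), γ k = v) ∧
    (∀ k < s ^ (d + 1), Joins (ε k) (γ k) (γ (k + 1))) := by
  obtain ⟨γ, h0, h1, h2, h3, h4, h5⟩ := snake' d s hs
  set n := s ^ (d + 1) with hn
  have hn0 : 0 < n := pow_pos hs _
  have hJ : ∀ k, ∃ e : Edge (d + 1), k < n → Joins e (γ k) (γ (k + 1)) := by
    intro k
    by_cases hk : k < n
    · by_cases hk1 : k + 1 < n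
      · obtain ⟨e, he⟩ := nbr_joins (h3 k hk1)
        exact ⟨e, fun _ => he⟩
      · have : k = n - 1 := by omega
        obtain ⟨e, he⟩ := nbr_joins h5
        refine ⟨e, fun _ => ?_⟩
        rw [this, Nat.sub_add_cancel hn0]
        exact he
    · exact ⟨(0, 0), fun h => absurd h hk⟩
  choose ε hε using hJ
  refine ⟨γ, ε, h0, h1, h4, ?_, ?_, hε⟩
  · intro k hk l hl hkl
    rcases Nat.lt_or_ge k n with hk1 | hk1
    · rcases Nat.lt_or_ge l n with hl1 | hl1
      · exact h2 k hk1 l hl1 hkl
      · have : l = n := le_antisymm hl hl1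
        rw [this] at hkl
        have := (h1 k hk1 0).2
        rw [hkl, h4] at this
        exact absurd this (lt_irrefl _)
    · have hkn : k = n := le_antisymm hk hk1
      rcases Nat.lt_or_ge l n with hl1 | hl1
      · rw [hkn] at hkl
        have := (h1 l hl1 0).2
        rw [← hkl, h4] at this
        exact absurd this (lt_irrefl _)
      · omega
  · intro v hv
    set B : Finset (Fin (d + 1) → ℤ) := Fintype.piFinset (fun _ => Finset.Ico (0 : ℤ) s) with hB
    have hBc : B.card = n := by
      rw [hB, Fintype.card_piFinset]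
      simp [hn]
    have hmem : ∀ u, u ∈ B ↔ InBox s u := by
      intro u
      simp [hB, InBox]
    have himg : (Finset.range n).image γ = B := by
      apply Finset.eq_of_subset_of_card_le
      · intro u hu
        simp only [Finset.mem_image, Finset.mem_range] at hu
        obtain ⟨k, hk, rfl⟩ := hu
        exact (hmem _).mpr (h1 k hk)
      · rw [Finset.card_image_of_injOn, Finset.card_range, hBc]
        intro k hk l hl hkl
        simp only [Finset.coe_range, Set.mem_Iio] at hk hl
        exact h2 k hk l hl hkl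
    have : v ∈ (Finset.range n).image γ := by
      rw [himg]; exact (hmem v).mpr hv
    simp only [Finset.mem_image, Finset.mem_range] at this
    exact this

theorem verts_zero {d : ℕ} (ω : Edge d → Bool) : (0 : Fin d → ℤ) ∈ verts ω :=
  Relation.ReflTransGen.refl

theorem verts_adj {d : ℕ} {ω : Edge d → Bool} {u v : Fin d → ℤ} (hu : u ∈ verts ω)
    (h : Adj ω u v) : v ∈ verts ω := Relation.ReflTransGen.tail hu h

/-- The path `T`, the other edges `Z` of the box. -/
theorem box_event (d s : ℕ) (hs : 1 ≤ s) : ∃ (T Z : Finset (Edge (d + 1))) (w : Fin (d + 1) → ℤ),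
    Disjoint T Z ∧ T.card = s ^ (d + 1) ∧ T.card + Z.card = (d + 1) * ((s + 1) * s ^ d) ∧
    w 0 = s ∧ (∀ e ∈ T ∪ Z, e.1 0 < s) ∧
    (∀ ω : Edge (d + 1) → Bool, (verts ω).Infinite → (∀ e ∈ Z, e ∉ edges ω) →
      (∀ e ∈ T, ω e = true) ∧ ∀ e ∈ Z, ω e = false) ∧
    (∀ ω : Edge (d + 1) → Bool, (∀ e ∈ T, ω e = true) → (∀ e ∈ Z, ω e = false) →
      w ∈ verts ω ∧ ∀ e ∈ Z, e ∉ edges ω) := by
  classical
  obtain ⟨γ, ε, h0, h1, h2, h3, h4, h5⟩ := exists_path d s hs
  set n := s ^ (d + 1) with hn
  have hn0 : 0 < n := pow_pos hs _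
  set T : Finset (Edge (d + 1)) := (Finset.range n).image ε with hT
  have hεinj : ∀ k < n, ∀ l < n, ε k = ε l → k = l := by
    intro k hk l hl hkl
    have a1 := h5 k hk
    have a2 := h5 l hl
    rw [hkl] at a1
    rcases a1.eq a2 with ⟨b1, _⟩ | ⟨b1, b2⟩
    · exact h3 k hk.le l hl.le b1
    · have c1 := h3 k hk.le (l + 1) hl b1
      have c2 := h3 (k + 1) hk l hl.le b2
      omega
  have hTc : T.card = n := by
    rw [hT, Finset.card_image_of_injOn, Finset.card_range]
    intro k hk l hl hkl
    simp only [Finset.coe_range, Set.mem_Iio] at hk hl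
    exact hεinj k hk l hl hkl
  have hinc : ∀ (e : Edge (d + 1)) (u v : Fin (d + 1) → ℤ), Joins e u v → InBox s u →
      e ∈ boxE (d + 1) s := by
    intro e u v hj hu
    rw [mem_boxE hs]
    rcases hj with ⟨a, _⟩ | ⟨_, a⟩
    · left; rw [← a]; exact hu
    · right; rw [← a]; exact hu
  have hTsub : T ⊆ boxE (d + 1) s := by
    intro e he
    simp only [hT, Finset.mem_image, Finset.mem_range] at he
    obtain ⟨k, hk, rfl⟩ := he
    exact hinc _ _ _ (h5 k hk) (h1 k hk)
  refine ⟨T, boxE (d + 1) s \ T, γ n, Finset.disjoint_sdiff, hTc, ?_, h2, ?_, ?_, ?_⟩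
  · rw [Finset.card_sdiff_of_subset hTsub, ← card_boxE]
    have := Finset.card_le_card hTsub
    omega
  · intro e he
    have he' : e ∈ boxE (d + 1) s := by
      rcases Finset.mem_union.mp he with h | h
      · exact hTsub h
      · exact (Finset.mem_sdiff.mp h).1
    rw [mem_boxE hs] at he'
    rcases he' with h | h
    · exact (h 0).2
    · have h6 := (h 0).2
      have h7 : 0 ≤ (Pi.single e.2 1 : Fin (d + 1) → ℤ) 0 := by
        by_cases hc : (0 : Fin (d + 1)) = e.2
        · rw [← hc]; simp
        · rw [Pi.single_eq_of_ne hc]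
      rw [Pi.add_apply] at h6
      linarith
  · intro ω hinf hD
    have hmemT : ∀ e : Edge (d + 1), Joins e e.1 (e.1 + Pi.single e.2 1) := fun e => Or.inl ⟨rfl, rfl⟩
    -- an open edge at a vertex of the cluster which lies in the box belongs to `T`
    have key : ∀ u v : Fin (d + 1) → ℤ, ∀ e, u ∈ verts ω → InBox s u → Joins e u v →
        ω e = true → e ∈ T := by
      intro u v e hu hub hj he
      by_contra hcon
      have hz : e ∈ boxE (d + 1) s \ T := Finset.mem_sdiff.mpr ⟨hinc e u v hj hub, hcon⟩
      apply hD e hz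
      refine ⟨he, ?_⟩
      rcases hj with ⟨a, _⟩ | ⟨a, b⟩
      · rw [← a]; exact hu
      · have : Adj ω u v := (adj_iff ω u v).mpr ⟨e, Or.inr ⟨a, b⟩, he⟩
        rw [← a]; exact verts_adj hu this
    have main : ∀ k, k ≤ n → (∀ j ≤ k, γ j ∈ verts ω) ∧ ∀ j < k, ω (ε j) = true := by
      intro k
      induction k with
      | zero =>
        intro _
        refine ⟨fun j hj => ?_, fun j hj => absurd hj (Nat.not_lt_zero _)⟩
        have : j = 0 := by omega
        rw [this, h0]; exact verts_zero ω
      | succ k ih =>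
        intro hk
        obtain ⟨i1, i2⟩ := ih (by omega)
        have hopen : ω (ε k) = true := by
          by_contra hcl
          apply hinf
          apply Set.Finite.subset ((Finset.range (k + 1)).image γ).finite_toSet
          intro v hv
          have hv' : Relation.ReflTransGen (Adj ω) 0 v := hv
          have : v ∈ verts ω ∧ ∃ j ≤ k, γ j = v := by
            induction hv' with
            | refl => exact ⟨verts_zero ω, 0, Nat.zero_le _, h0⟩
            | tail hab hbc ihv =>
              rename_i b c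
              obtain ⟨hb, j, hj, rfl⟩ := ihv hab
              refine ⟨verts_adj hb hbc, ?_⟩
              obtain ⟨e, hje, hoe⟩ := (adj_iff ω _ _).mp hbc
              have heT := key _ _ e hb (h1 j (by omega)) hje hoe
              simp only [hT, Finset.mem_image, Finset.mem_range] at heT
              obtain ⟨l, hl, rfl⟩ := heT
              rcases hje.eq (h5 l hl) with ⟨b1, b2⟩ | ⟨b1, b2⟩
              · have hjl := h3 j (by omega) l hl.le b1
                have hlk : l ≠ k := by
                  rintro rfl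
                  exact hcl hoe
                exact ⟨l + 1, by omega, b2.symm⟩
              · have hjl := h3 j (by omega) (l + 1) hl b1
                exact ⟨l, by omega, b2.symm⟩
          obtain ⟨_, j, hj, rfl⟩ := this
          simp only [Finset.coe_image, Finset.coe_range, Set.mem_image, Set.mem_Iio]
          exact ⟨j, by omega, rfl⟩
        refine ⟨fun j hj => ?_, fun j hj => ?_⟩
        · rcases Nat.lt_or_ge j (k + 1) with hj1 | hj1
          · exact i1 j (by omega)
          · have : j = k + 1 := by omega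
            rw [this]
            exact verts_adj (i1 k le_rfl) ((adj_iff ω _ _).mpr ⟨ε k, h5 k (by omega), hopen⟩)
        · rcases Nat.lt_or_ge j k with hj1 | hj1
          · exact i2 j hj1
          · have : j = k := by omega
            rw [this]; exact hopen
    obtain ⟨m1, m2⟩ := main n le_rfl
    refine ⟨fun e he => ?_, fun e he => ?_⟩
    · simp only [hT, Finset.mem_image, Finset.mem_range] at he
      obtain ⟨k, hk, rfl⟩ := he
      exact m2 k hk
    · by_contra hcon
      have hopen : ω e = true := by simpa using hcon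
      have heb := (mem_boxE hs e).mp (Finset.mem_sdiff.mp he).1
      have heT := (Finset.mem_sdiff.mp he).2
      rcases heb with hb | hb
      · obtain ⟨k, hk, hk2⟩ := h4 _ hb
        exact heT (key e.1 _ e (hk2 ▸ m1 k hk.le) hb (hmemT e) hopen)
      · obtain ⟨k, hk, hk2⟩ := h4 _ hb
        exact heT (key (e.1 + Pi.single e.2 1) _ e (hk2 ▸ m1 k hk.le) hb (hmemT e).symm hopen)
  · intro ω hT1 hZ
    refine ⟨?_, fun e he h => ?_⟩
    · have : ∀ k, k ≤ n → γ k ∈ verts ω := by
        intro k
        induction k with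
        | zero => intro _; rw [h0]; exact verts_zero ω
        | succ k ih =>
          intro hk
          refine verts_adj (ih (by omega)) ((adj_iff ω _ _).mpr ⟨ε k, h5 k (by omega), ?_⟩)
          exact hT1 _ (Finset.mem_image.mpr ⟨k, Finset.mem_range.mpr (by omega), rfl⟩)
      exact this n le_rfl
    · have := hZ e he
      rw [h.1] at this
      exact absurd this (by decide)

end Pool.Agent.TH967.MC
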