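import Mathlib

set_option autoImplicit false

namespace Pool.Agent.TH967.MC

open MeasureTheory

/-- The edge `(v, i)` of `ℤ^d` joins `v` and `v + e_i`. -/
abbrev Edge (d : ℕ) := (Fin d → ℤ) × Fin d

/-- Bernoulli bond percolation with parameter `p`. -/
noncomputable def perc (d : ℕ) (p : unitInterval) : Measure (Edge d → Bool) :=
  Measure.infinitePi (fun _ => ProbabilityTheory.bernoulliMeasure true false p)

/-- `u` and `v` are the ends of an open edge. -/
def Adj {d : ℕ} (ω : Edge d → Bool) (u v : Fin d → ℤ) : Prop :=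
  ∃ i, (ω (u, i) = true ∧ v = u + Pi.single i 1) ∨ (ω (v, i) = true ∧ u = v + Pi.single i 1)

/-- The vertices of the open cluster of the origin. -/
def verts {d : ℕ} (ω : Edge d → Bool) : Set (Fin d → ℤ) :=
  {v | Relation.ReflTransGen (Adj ω) 0 v}

/-- The edges of the open cluster of the origin. -/
def edges {d : ℕ} (ω : Edge d → Bool) : Set (Edge d) :=
  {e | ω e = true ∧ e.1 ∈ verts ω}

instance (d : ℕ) (p : unitInterval) : IsProbabilityMeasure (perc d p) := by
  unfold perc; infer_instance

theorem cyl {d : ℕ} (p : unitInterval) (A B : Finset (Edge d)) (h : Disjoint A B) :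
    (perc d p).real {ω | (∀ e ∈ A, ω e = true) ∧ ∀ e ∈ B, ω e = false} =
      (p : ℝ) ^ A.card * (1 - (p : ℝ)) ^ B.card := by
  classical
  have e1 : {ω : Edge d → Bool | (∀ e ∈ A, ω e = true) ∧ ∀ e ∈ B, ω e = false} =
      Set.pi ((A ∪ B : Finset (Edge d)) : Set (Edge d)) (fun e => if e ∈ A then {true} else {false}) := by
    ext ω
    simp only [Set.mem_ofPred_eq, Set.mem_pi, Finset.coe_union, Set.mem_union, Finset.mem_coe]
    constructor
    · rintro ⟨h1, h2⟩ e he
      by_cases hA : e ∈ A
      · simp [hA, h1 e hA]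
      · simp [hA, h2 e (he.resolve_left hA)]
    · intro h3
      refine ⟨fun e he => ?_, fun e he => ?_⟩
      · have := h3 e (Or.inl he)
        simpa [he] using this
      · have hA : e ∉ A := fun hA => (Finset.disjoint_left.mp h hA he)
        have := h3 e (Or.inr he)
        simpa [hA] using this
  rw [e1, measureReal_def]
  unfold perc
  rw [Measure.infinitePi_pi _ (fun e _ => MeasurableSet.of_discrete), ENNReal.toReal_prod,
    Finset.prod_union h]
  congr 1
  · rw [Finset.prod_congr rfl (g := fun _ => (p : ℝ)), Finset.prod_const]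
    intro e he
    simp [he, ProbabilityTheory.bernoulliMeasure_def]
  · rw [Finset.prod_congr rfl (g := fun _ => 1 - (p : ℝ)), Finset.prod_const]
    intro e he
    have hA : e ∉ A := fun hA => (Finset.disjoint_left.mp h hA he)
    simp [hA, ProbabilityTheory.bernoulliMeasure_def]

theorem meas_eq {d : ℕ} (e : Edge d) (b : Bool) : MeasurableSet {ω : Edge d → Bool | ω e = b} := by
  have h : MeasurableSet ((fun f : Edge d → Bool => f e) ⁻¹' {b}) :=
    measurable_pi_apply e (measurableSet_singleton b)
  exact h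

theorem meas_cyl {d : ℕ} (A B : Finset (Edge d)) :
    MeasurableSet {ω : Edge d → Bool | (∀ e ∈ A, ω e = true) ∧ ∀ e ∈ B, ω e = false} := by
  have h1 : ∀ (e : Edge d) (b : Bool), MeasurableSet {ω : Edge d → Bool | ω e = b} := meas_eq
  have e1 : {ω : Edge d → Bool | (∀ e ∈ A, ω e = true) ∧ ∀ e ∈ B, ω e = false} =
      (⋂ e ∈ A, {ω : Edge d → Bool | ω e = true}) ∩ ⋂ e ∈ B, {ω : Edge d → Bool | ω e = false} := by
    ext ω; simp
  rw [e1]
  exact (Finset.measurableSet_biInter _ fun e _ => h1 e true).inter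
    (Finset.measurableSet_biInter _ fun e _ => h1 e false)

theorem meas_adj {d : ℕ} (u v : Fin d → ℤ) : MeasurableSet {ω : Edge d → Bool | Adj ω u v} := by
  have h1 : ∀ (e : Edge d) (b : Bool), MeasurableSet {ω : Edge d → Bool | ω e = b} := meas_eq
  have e1 : {ω : Edge d → Bool | Adj ω u v} = ⋃ i : Fin d,
      (({ω : Edge d → Bool | ω (u, i) = true} ∩ {_ω | v = u + Pi.single i 1}) ∪
      ({ω : Edge d → Bool | ω (v, i) = true} ∩ {_ω | u = v + Pi.single i 1})) := by
    ext ω
    simp only [Adj, Set.mem_ofPred_eq, Set.mem_iUnion, Set.mem_union, Set.mem_inter_iff]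
  rw [e1]
  exact MeasurableSet.iUnion fun i => ((h1 _ _).inter (MeasurableSet.const _)).union
    ((h1 _ _).inter (MeasurableSet.const _))

/-- `v` is reached from `u` in `n` steps -/
def Reach {d : ℕ} (ω : Edge d → Bool) (u : Fin d → ℤ) : ℕ → (Fin d → ℤ) → Prop
  | 0, v => v = u
  | n + 1, v => ∃ w, Reach ω u n w ∧ Adj ω w v

theorem reach_iff {d : ℕ} (ω : Edge d → Bool) (u v : Fin d → ℤ) :
    Relation.ReflTransGen (Adj ω) u v ↔ ∃ n, Reach ω u n v := by
  constructor
  · intro h
    induction h with
    | refl => exact ⟨0, rfl⟩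
    | tail _ hbc ih =>
      obtain ⟨n, hn⟩ := ih
      exact ⟨n + 1, _, hn, hbc⟩
  · rintro ⟨n, hn⟩
    induction n generalizing v with
    | zero => rw [hn]
    | succ n ih =>
      obtain ⟨w, h1, h2⟩ := hn
      exact (ih w h1).tail h2

theorem meas_reach {d : ℕ} (u : Fin d → ℤ) (n : ℕ) (v : Fin d → ℤ) :
    MeasurableSet {ω : Edge d → Bool | Reach ω u n v} := by
  induction n generalizing v with
  | zero =>
    simp only [Reach]
    exact MeasurableSet.const _
  | succ n ih =>
    have e1 : {ω : Edge d → Bool | Reach ω u (n + 1) v} =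
        ⋃ w, ({ω : Edge d → Bool | Reach ω u n w} ∩ {ω | Adj ω w v}) := by
      ext ω; simp [Reach]
    rw [e1]
    exact MeasurableSet.iUnion fun w => (ih w).inter (meas_adj w v)

theorem meas_conn {d : ℕ} (u v : Fin d → ℤ) :
    MeasurableSet {ω : Edge d → Bool | Relation.ReflTransGen (Adj ω) u v} := by
  have e1 : {ω : Edge d → Bool | Relation.ReflTransGen (Adj ω) u v} =
      ⋃ n, {ω : Edge d → Bool | Reach ω u n v} := by
    ext ω; simp [reach_iff]
  rw [e1]
  exact MeasurableSet.iUnion fun n => meas_reach u n v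

theorem meas_inf {d : ℕ} : MeasurableSet {ω : Edge d → Bool | (verts ω).Infinite} := by
  have e1 : {ω : Edge d → Bool | (verts ω).Infinite} =
      ⋂ F : Finset (Fin d → ℤ), ⋃ v : {v // v ∉ F}, {ω | Relation.ReflTransGen (Adj ω) 0 v.1} := by
    ext ω
    simp only [Set.mem_ofPred_eq, Set.mem_iInter, Set.mem_iUnion, Subtype.exists, exists_prop]
    constructor
    · intro h F
      obtain ⟨v, hv, hF⟩ := h.exists_notMem_finset F
      exact ⟨v, hF, hv⟩
    · intro h hfin
      obtain ⟨v, h1, h2⟩ := h hfin.toFinset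
      exact h1 (hfin.mem_toFinset.mpr h2)
  rw [e1]
  exact MeasurableSet.iInter fun F => MeasurableSet.iUnion fun v => meas_conn 0 v.1

/-- the open cluster of the origin, as a subgraph -/
def cluster {d : ℕ} (ω : Edge d → Bool) : Set (Fin d → ℤ) × Set (Edge d) := (verts ω, edges ω)

theorem meas_cluster {d : ℕ} : Measurable (cluster (d := d)) := by
  refine Measurable.prodMk ?_ ?_
  · rw [measurable_set_iff]
    intro v
    exact measurableSet_setOfPred.mp (meas_conn 0 v)
  · rw [measurable_set_iff]
    intro e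
    have : MeasurableSet {ω : Edge d → Bool | ω e = true ∧ e.1 ∈ verts ω} :=
      (meas_eq e true).inter (meas_conn 0 e.1)
    exact measurableSet_setOfPred.mp this

end Pool.Agent.TH967.MC
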