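import Pool.Agent.TH967.MC.Low

set_option autoImplicit false

namespace Pool.Agent.TH967.MC

open MeasureTheory

/-- the box event in dimension `D` -/
theorem box_event' (D s : ℕ) (hD : 0 < D) (hs : 1 ≤ s) : ∃ (T Z : Finset (Edge D)) (w : Fin D → ℤ),
    Disjoint T Z ∧ T.card = s ^ D ∧ T.card + Z.card = D * ((s + 1) * s ^ (D - 1)) ∧
    w ⟨0, hD⟩ = s ∧ (∀ e, e ∈ T ∨ e ∈ Z → e.1 ⟨0, hD⟩ < s) ∧
    (∀ ω : Edge D → Bool, (verts ω).Infinite → (∀ e ∈ Z, e ∉ edges ω) →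
      (∀ e ∈ T, ω e = true) ∧ ∀ e ∈ Z, ω e = false) ∧
    (∀ ω : Edge D → Bool, (∀ e ∈ T, ω e = true) → (∀ e ∈ Z, ω e = false) →
      w ∈ verts ω ∧ ∀ e ∈ Z, e ∉ edges ω) := by
  obtain ⟨d, rfl⟩ : ∃ d, D = d + 1 := ⟨D - 1, by omega⟩
  obtain ⟨T, Z, w, h1, h2, h3, h4, h5, h6, h7⟩ := box_event d s hs
  exact ⟨T, Z, w, h1, h2, h3, h4, fun e he => h5 e (Finset.mem_union.mpr he), h6, h7⟩

/-- survival of open walks off the box -/
theorem survive {D : ℕ} (hD : 10 ^ 6 ≤ D) (p : unitInterval) (hp : (49 : ℝ) / (50 * D) ≤ p)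
    (T Z : Finset (Edge D)) (hTZ : Disjoint T Z) (h0 : 0 < D) (s : ℤ)
    (hlt : ∀ e, e ∈ T ∨ e ∈ Z → e.1 ⟨0, h0⟩ < s) (a : Fin D → ℤ) (ha : s ≤ a ⟨0, h0⟩) :
    (p : ℝ) ^ T.card * (1 - (p : ℝ)) ^ Z.card / 2000 ≤
      (perc D p).real (CC T Z ∩ {ω | {v | Relation.ReflTransGen (Adj ω) a v}.Infinite}) := by
  obtain ⟨o, w, ho, hw, rfl⟩ : ∃ o w, o = D / 5 ∧ w = D - D / 5 ∧ D = o + w :=
    ⟨D / 5, D - D / 5, rfl, rfl, by omega⟩
  have hDR : (10 : ℝ) ^ 6 ≤ ((o + w : ℕ) : ℝ) := by exact_mod_cast hD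
  have hD0 : (0 : ℝ) < ((o + w : ℕ) : ℝ) := by linarith [show (0 : ℝ) < 10 ^ 6 by norm_num]
  have hp0 : (0 : ℝ) < p := lt_of_lt_of_le (by positivity) hp
  have ho1 : 32 ≤ o := by omega
  have ho2 : 0 < o := by omega
  have hw1 : 0 < w := by omega
  have hc : (1 / (p : ℝ)) * (p : ℝ) = 1 := by field_simp
  have hc1 : 1 ≤ 1 / (p : ℝ) := by
    rw [le_div_iff₀ hp0, one_mul]; exact p.2.2
  have hc2 : 1 / (p : ℝ) ≤ (50 / 49) * ((o + w : ℕ) : ℝ) := by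
    rw [div_le_iff₀ hp0]
    rw [div_le_iff₀ (by positivity)] at hp
    nlinarith
  have hn := numer (o + w) hD hc1 hc2
  rw [← hw, ← ho] at hn
  have h1 := UpAll_prob p (j0 := ⟨0, ho2⟩) (s := s) hTZ (fun e he => hlt e he) hc hc1
    (by norm_num : (1 : ℝ) ≤ 2000) ho1 hw1 hn a ha
  refine h1.trans ?_
  apply measureReal_mono _ (measure_ne_top _ _)
  rintro ω ⟨h2, h3⟩
  refine ⟨h2, ?_⟩
  rw [Set.mem_iInter] at h3
  intro hfin
  obtain ⟨M, hM⟩ := (hfin.image (lev w)).bddAbove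
  obtain ⟨v, h4, h5⟩ := h3 (M - lev w a + 1).toNat
  have h6 := hM (Set.mem_image_of_mem (lev w) (show v ∈ {v | Relation.ReflTransGen (Adj ω) a v} from h5))
  have h7 := Int.self_le_toNat (M - lev w a + 1)
  omega

/-- the probability that the cluster of the origin is infinite -/
theorem theta_ge {D : ℕ} (hD : 10 ^ 6 ≤ D) (p : unitInterval) (hp : (49 : ℝ) / (50 * D) ≤ p) :
    1 / 2000 ≤ (perc D p).real {ω | (verts ω).Infinite} := by
  have h := survive hD p hp ∅ ∅ (Finset.disjoint_empty_left _) (by omega) 0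
    (fun e he => by simp at he) 0 le_rfl
  simp only [Finset.card_empty, pow_zero, mul_one] at h
  refine h.trans (measureReal_mono (fun ω hω => hω.2) (measure_ne_top _ _))

/-- the event -/
def DD {D : ℕ} (Z : Finset (Edge D)) : Set (Edge D → Bool) := {ω | ∀ e ∈ Z, e ∉ edges ω}

theorem DD_lower {D : ℕ} (hD : 10 ^ 6 ≤ D) (p : unitInterval) (hp : (49 : ℝ) / (50 * D) ≤ p)
    (T Z : Finset (Edge D)) (w : Fin D → ℤ) (hTZ : Disjoint T Z) (h0 : 0 < D) (s : ℕ)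
    (hw : w ⟨0, h0⟩ = s)
    (hlt : ∀ e, e ∈ T ∨ e ∈ Z → e.1 ⟨0, h0⟩ < s)
    (hin : ∀ ω : Edge D → Bool, (∀ e ∈ T, ω e = true) → (∀ e ∈ Z, ω e = false) →
      w ∈ verts ω ∧ ∀ e ∈ Z, e ∉ edges ω) :
    (p : ℝ) ^ T.card * (1 - (p : ℝ)) ^ Z.card / 2000 ≤
      (perc D p).real ({ω | (verts ω).Infinite} ∩ DD Z) := by
  refine (survive hD p hp T Z hTZ h0 s hlt w hw.ge).trans
    (measureReal_mono ?_ (measure_ne_top _ _))
  rintro ω ⟨⟨h1, h2⟩, h3⟩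
  obtain ⟨h4, h5⟩ := hin ω h1 h2
  refine ⟨?_, h5⟩
  exact Set.Infinite.mono (fun v hv => Relation.ReflTransGen.trans h4 hv) h3

theorem DD_upper {D : ℕ} (p : unitInterval) (T Z : Finset (Edge D)) (hTZ : Disjoint T Z)
    (hin : ∀ ω : Edge D → Bool, (verts ω).Infinite → (∀ e ∈ Z, e ∉ edges ω) →
      (∀ e ∈ T, ω e = true) ∧ ∀ e ∈ Z, ω e = false) :
    (perc D p).real ({ω | (verts ω).Infinite} ∩ DD Z) ≤
      (p : ℝ) ^ T.card * (1 - (p : ℝ)) ^ Z.card := by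
  rw [← cyl p T Z hTZ]
  exact measureReal_mono (fun ω hω => hin ω hω.1 hω.2) (measure_ne_top _ _)

/-- `p (1-p)^(D-1)` is strictly increasing up to `1/D` -/
theorem g_mono {D : ℕ} (hD : 2 ≤ D) {p q : ℝ} (hp : 0 ≤ p) (hpq : p < q) (hq : q ≤ 1 / D) :
    p * (1 - p) ^ (D - 1) < q * (1 - q) ^ (D - 1) := by
  obtain ⟨n, rfl⟩ : ∃ n, D = n + 2 := ⟨D - 2, by omega⟩
  have e1 : n + 2 - 1 = n + 1 := by omega
  rw [e1]
  have hmono : StrictMonoOn (fun x : ℝ => x * (1 - x) ^ (n + 1)) (Set.Icc 0 (1 / ((n + 2 : ℕ) : ℝ))) := by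
    apply strictMonoOn_of_deriv_pos (convex_Icc _ _)
    · fun_prop
    · intro x hx
      rw [interior_Icc] at hx
      have hd : HasDerivAt (fun x : ℝ => x * (1 - x) ^ (n + 1))
          (1 * (1 - x) ^ (n + 1) + x * (((n + 1 : ℕ) : ℝ) * (1 - x) ^ n * (0 - 1))) x := by
        have h0 : HasDerivAt (fun x : ℝ => 1 - x) (0 - 1) x :=
          (hasDerivAt_const x (1 : ℝ)).sub (hasDerivAt_id x)
        have h1 : HasDerivAt (fun x : ℝ => (1 - x) ^ (n + 1))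
          (((n + 1 : ℕ) : ℝ) * (1 - x) ^ n * (0 - 1)) x := h0.pow (n + 1)
        exact (hasDerivAt_id x).mul h1
      rw [hd.deriv]
      have h3 : x * ((n + 2 : ℕ) : ℝ) < 1 := by
        have := hx.2
        rwa [lt_div_iff₀ (by positivity)] at this
      have h4 : x < 1 := by
        have h5 : (1 : ℝ) ≤ ((n + 2 : ℕ) : ℝ) := by exact_mod_cast (by omega : 1 ≤ n + 2)
        nlinarith [hx.1]
      have h5 : 0 < (1 - x) ^ n := pow_pos (by linarith) _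
      have e2 : 1 * (1 - x) ^ (n + 1) + x * (((n + 1 : ℕ) : ℝ) * (1 - x) ^ n * (0 - 1)) =
          (1 - x) ^ n * (1 - x * ((n + 2 : ℕ) : ℝ)) := by
        push_cast; ring
      rw [e2]
      exact mul_pos h5 (by linarith)
  exact hmono ⟨hp, hpq.le.trans hq⟩ ⟨hp.trans hpq.le, hq⟩ hpq

/-- the numbers cannot be comparable for all boxes -/
theorem growth {D : ℕ} (hD : 2 ≤ D) {p q K : ℝ} (hp : 0 < p) (hpq : p < q) (hq : q ≤ 1 / D)
    (hK : 0 < K) : ∃ s : ℕ, 1 ≤ s ∧ ∀ n m : ℕ, n = s ^ D → n + m = D * ((s + 1) * s ^ (D - 1)) →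
      K * (p ^ n * (1 - p) ^ m) < q ^ n * (1 - q) ^ m := by
  have hD1 : (2 : ℝ) ≤ D := by exact_mod_cast hD
  have hq1 : q < 1 := by
    refine hq.trans_lt ?_
    rw [div_lt_one (by linarith)]; linarith
  have hq0 : 0 < q := hp.trans hpq
  set g1 := p * (1 - p) ^ (D - 1) with hg1
  set g2 := q * (1 - q) ^ (D - 1) with hg2
  have hg10 : 0 < g1 := mul_pos hp (pow_pos (by linarith) _)
  have hlt : g1 < g2 := g_mono hD hp.le hpq hq
  have hρ : 1 < g2 / g1 := by rwa [one_lt_div hg10]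
  set κ := ((1 - q) / (1 - p)) ^ D with hκ
  have hκ0 : 0 < κ := pow_pos (div_pos (by linarith) (by linarith)) _
  obtain ⟨s, hs⟩ := pow_unbounded_of_one_lt ((K + 1) / κ) hρ
  refine ⟨s + 1, by omega, ?_⟩
  intro n m hn hnm
  obtain ⟨t, ht⟩ : ∃ t, t = s + 1 := ⟨_, rfl⟩
  rw [← ht] at hn hnm
  have ht1 : 1 ≤ t := by omega
  have h1 : (K + 1) / κ < (g2 / g1) ^ t := by
    refine hs.trans_le ?_
    rw [ht]
    exact pow_le_pow_right₀ hρ.le (by omega)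
  have h2 : K + 1 < (g2 / g1) ^ t * κ := by rwa [div_lt_iff₀ hκ0] at h1
  set r := t ^ (D - 1) with hr
  have hr1 : 1 ≤ r := Nat.one_le_pow _ _ ht1
  have hn' : n = t * r := by
    rw [hn, hr, ← pow_succ']
    congr 1; omega
  have hm' : m = (D - 1) * (t * r) + D * r := by
    obtain ⟨E, hE⟩ : ∃ E, D = E + 1 := ⟨D - 1, by omega⟩
    rw [hE] at hnm ⊢
    have e3 : (E + 1) * ((t + 1) * r) = t * r + (E * (t * r) + (E + 1) * r) := by ring
    have e4 : E + 1 - 1 = E := by omega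
    rw [e3] at hnm
    rw [e4]
    omega
  have key : ∀ x : ℝ, x ^ n * (1 - x) ^ m = ((x * (1 - x) ^ (D - 1)) ^ t * (1 - x) ^ D) ^ r := by
    intro x
    rw [hn', hm']
    generalize 1 - x = y
    generalize D - 1 = E
    ring
  have h3 : K < ((g2 / g1) ^ t * κ) ^ r := by
    have h4 : (1 : ℝ) ≤ (g2 / g1) ^ t * κ := by linarith
    have h5 : (g2 / g1) ^ t * κ ≤ ((g2 / g1) ^ t * κ) ^ r := by
      calc (g2 / g1) ^ t * κ = ((g2 / g1) ^ t * κ) ^ 1 := (pow_one _).symm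
        _ ≤ _ := pow_le_pow_right₀ h4 hr1
    linarith
  have h6 : 0 < p ^ n * (1 - p) ^ m := mul_pos (pow_pos hp _) (pow_pos (by linarith) _)
  have h7 : q ^ n * (1 - q) ^ m = ((g2 / g1) ^ t * κ) ^ r * (p ^ n * (1 - p) ^ m) := by
    rw [key p, key q, ← mul_pow]
    congr 1
    rw [← hg1, ← hg2, hκ, div_pow, div_pow]
    have : (1 - p) ^ D ≠ 0 := pow_ne_zero _ (by linarith)
    have : g1 ^ t ≠ 0 := pow_ne_zero _ hg10.ne'
    field_simp
  rw [h7]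
  exact mul_lt_mul_of_pos_right h3 h6

end Pool.Agent.TH967.MC
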