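import Pool.Agent.TH967.MC.Wig

set_option autoImplicit false

namespace Pool.Agent.TH967.MC

open Finset

variable {o w : ℕ}

theorem path_AA (Φ : Finset (Edge (o + w))) (v : ℕ → (Fin (o + w) → ℤ)) (n : ℕ) {x : ℝ} (hx : 0 ≤ x)
    (hΦ : ∀ e ∈ Φ, ∃ k < n, Joins e (v k) (v (k + 1)))
    (hinj : ∀ i ≤ n, ∀ j ≤ n, v i = v j → i = j) (r : ℕ) (hr : r ≤ n) :
    (∀ i, i + r < n → AA Φ x (v n) r (v i) = 0) ∧ AA Φ x (v n) r (v (n - r)) ≤ x ^ r := by
  classical
  induction r with
  | zero =>
    refine ⟨fun i hi => ?_, ?_⟩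
    · unfold AA
      rw [if_neg]
      intro h
      have := hinj i (by omega) n le_rfl h
      omega
    · unfold AA
      split_ifs <;> norm_num
  | succ r ih =>
    obtain ⟨ih1, ih2⟩ := ih (by omega)
    -- neighbours inside the path
    have nb : ∀ i ≤ n, ∀ σ : St w, ed (v i) σ ∈ Φ → (i + 1 ≤ n ∧ v i + dir o σ = v (i + 1)) ∨
        (1 ≤ i ∧ v i + dir o σ = v (i - 1)) := by
      intro i hi σ h
      obtain ⟨k, hk, hj⟩ := hΦ _ h
      rcases (joins_ed (v i) σ).eq hj with ⟨b1, b2⟩ | ⟨b1, b2⟩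
      · have := hinj i hi k hk.le b1
        subst this
        exact Or.inl ⟨hk, b2⟩
      · have := hinj i hi (k + 1) hk b1
        subst this
        exact Or.inr ⟨by omega, by simpa using b2⟩
    refine ⟨fun i hi => ?_, ?_⟩
    · show x * _ = 0
      rw [sum_eq_zero, mul_zero]
      intro σ hσ
      rcases nb i (by omega) σ (by simpa using hσ) with ⟨_, h⟩ | ⟨h0, h⟩
      · rw [h]; exact ih1 (i + 1) (by omega)
      · rw [h]; exact ih1 (i - 1) (by omega)
    · show x * _ ≤ _
      rw [pow_succ, mul_comm (x ^ r)]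
      apply mul_le_mul_of_nonneg_left _ hx
      have e1 : n - r = n - (r + 1) + 1 := by omega
      have h1 : ∀ σ ∈ univ.filter (fun σ : St w => ed (v (n - (r + 1))) σ ∈ Φ),
          AA Φ x (v n) r (v (n - (r + 1)) + dir o σ) ≤
            (if v (n - (r + 1)) + dir o σ = v (n - r) then (1 : ℝ) else 0) * x ^ r := by
        intro σ hσ
        rcases nb (n - (r + 1)) (by omega) σ (by simpa using hσ) with ⟨_, h⟩ | ⟨h0, h⟩
        · rw [← e1] at h
          rw [h, if_pos rfl, one_mul]
          exact ih2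
        · rw [h, ih1 _ (by omega)]
          split_ifs <;> positivity
      refine (sum_le_sum h1).trans ?_
      rw [← sum_mul]
      apply mul_le_of_le_one_left (by positivity)
      refine (sum_le_sum_of_subset_of_nonneg (filter_subset _ _) ?_).trans (sum_ind_le _ _)
      intro σ _ _
      split_ifs <;> norm_num

/-- four steps -/
abbrev S4 (w : ℕ) := St w × St w × St w × St w

/-- end point -/
def end4 (a : Fin (o + w) → ℤ) (s : S4 w) : Fin (o + w) → ℤ :=
  a + dir o s.1 + dir o s.2.1 + dir o s.2.2.1 + dir o s.2.2.2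

open Classical in
/-- the edges of the four steps -/
noncomputable def W4 (a : Fin (o + w) → ℤ) (s : S4 w) : Finset (Edge (o + w)) :=
  {ed a s.1, ed (a + dir o s.1) s.2.1, ed (a + dir o s.1 + dir o s.2.1) s.2.2.1,
    ed (a + dir o s.1 + dir o s.2.1 + dir o s.2.2.1) s.2.2.2}

theorem card_W4 (a : Fin (o + w) → ℤ) (s : S4 w) : (W4 a s).card ≤ 4 := by
  classical
  exact card_le_four

/-- vertices of the four steps -/
def vv (a : Fin (o + w) → ℤ) (s : S4 w) : ℕ → (Fin (o + w) → ℤ)
  | 0 => a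
  | 1 => a + dir o s.1
  | 2 => a + dir o s.1 + dir o s.2.1
  | 3 => a + dir o s.1 + dir o s.2.1 + dir o s.2.2.1
  | _ => end4 a s

theorem W4_joins (a : Fin (o + w) → ℤ) (s : S4 w) (e : Edge (o + w)) (he : e ∈ W4 a s) :
    ∃ k < 4, Joins e (vv a s k) (vv a s (k + 1)) := by
  classical
  unfold W4 at he
  simp only [mem_insert, mem_singleton] at he
  rcases he with rfl | rfl | rfl | rfl
  · exact ⟨0, by norm_num, joins_ed _ _⟩
  · exact ⟨1, by norm_num, joins_ed _ _⟩
  · exact ⟨2, by norm_num, joins_ed _ _⟩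
  · exact ⟨3, by norm_num, joins_ed _ _⟩

/-- average over four steps -/
noncomputable def av4 (f : S4 w → ℝ) : ℝ :=
  av fun s1 => av fun s2 => av fun s3 => av fun s4 => f (s1, s2, s3, s4)

theorem av4_mono {f g : S4 w → ℝ} (h : ∀ s, f s ≤ g s) : av4 f ≤ av4 g :=
  av_mono fun _ => av_mono fun _ => av_mono fun _ => av_mono fun _ => h _

theorem av4_const (hw : 0 < w) (c : ℝ) : av4 (fun _ : S4 w => c) = c := by
  unfold av4
  simp only [av_const hw]

theorem av4_add (f g : S4 w → ℝ) : av4 (fun σ => f σ + g σ) = av4 f + av4 g := by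
  unfold av4
  simp only [av_add]

theorem av4_mul (c : ℝ) (f : S4 w → ℝ) : av4 (fun σ => c * f σ) = c * av4 f := by
  unfold av4
  simp only [av_mul]

theorem av4_nonneg {f : S4 w → ℝ} (h : ∀ σ, 0 ≤ f σ) : 0 ≤ av4 f :=
  av_nonneg fun _ => av_nonneg fun _ => av_nonneg fun _ => av_nonneg fun _ => h _

theorem pow_card_le (Φ : Finset (Edge (o + w))) {c : ℝ} (hc : 1 ≤ c) (e1 e2 e3 e4 : Edge (o + w)) :
    open Classical in
    c ^ (Φ ∩ ({e1, e2, e3, e4} : Finset (Edge (o + w)))).card ≤
      kap Φ c e1 * (kap Φ c e2 * (kap Φ c e3 * kap Φ c e4)) := by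
  classical
  have h1 : ∀ (e : Edge (o + w)) (X : Finset (Edge (o + w))),
      c ^ (Φ ∩ insert e X).card ≤ kap Φ c e * c ^ (Φ ∩ X).card := by
    intro e X
    unfold kap
    by_cases he : e ∈ Φ
    · rw [if_pos he, inter_insert_of_mem he, ← pow_succ']
      exact pow_le_pow_right₀ hc (card_insert_le _ _)
    · rw [if_neg he, inter_insert_of_notMem he, one_mul]
  have h2 : c ^ (Φ ∩ ({e4} : Finset (Edge (o + w)))).card ≤ kap Φ c e4 := by
    have := h1 e4 ∅
    simpa using this
  have p1 := kap_nonneg Φ hc e1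
  have p2 := kap_nonneg Φ hc e2
  have p3 := kap_nonneg Φ hc e3
  refine (h1 e1 _).trans (mul_le_mul_of_nonneg_left ?_ p1)
  refine (h1 e2 _).trans (mul_le_mul_of_nonneg_left ?_ p2)
  refine (h1 e3 _).trans (mul_le_mul_of_nonneg_left ?_ p3)
  exact h2

open Classical in
theorem av4_le_HH (Φ : Finset (Edge (o + w))) {c : ℝ} (hc : 1 ≤ c) (f : (Fin (o + w) → ℤ) → ℝ)
    (hf : ∀ v, 0 ≤ f v) (b : Fin (o + w) → ℤ) :
    av4 (fun s => c ^ (Φ ∩ W4 b s).card * f (end4 b s)) ≤ HH (kap Φ c) f 4 b := by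
  have e : HH (kap Φ c) f 4 b = av4 (fun s => (kap Φ c (ed b s.1) * (kap Φ c (ed (b + dir o s.1) s.2.1) *
      (kap Φ c (ed (b + dir o s.1 + dir o s.2.1) s.2.2.1) *
        kap Φ c (ed (b + dir o s.1 + dir o s.2.1 + dir o s.2.2.1) s.2.2.2)))) * f (end4 b s)) := by
    unfold HH HH HH HH HH av4 end4
    simp only [mul_assoc, av_mul]
  rw [e]
  apply av4_mono
  intro s
  exact mul_le_mul_of_nonneg_right (pow_card_le Φ hc _ _ _ _) (hf _)

theorem av_shift (hw : 0 < w) (Q C R k : ℝ) (hC : 0 ≤ C) (I : St w → ℝ) (hI : av I ≤ k) :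
    av (fun σ => Q + C * (R + I σ)) ≤ Q + C * (R + k) := by
  have e : av (fun σ => Q + C * (R + I σ)) = Q + C * (R + av I) := by
    have : (fun σ => Q + C * (R + I σ)) = fun σ => (Q + C * R) + C * I σ := by
      funext σ; ring
    rw [this, av_add, av_const hw, av_mul]; ring
  rw [e]
  nlinarith

open Classical in
/-- indicator of equality -/
noncomputable def iE (u v : Fin (o + w) → ℤ) : ℝ := if u = v then 1 else 0

theorem iE_nonneg (u v : Fin (o + w) → ℤ) : 0 ≤ iE u v := by
  unfold iE; split_ifs <;> norm_num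

theorem av_iE (v t : Fin (o + w) → ℤ) :
    av (fun σ : St w => iE (v + dir o σ) t) ≤ 1 / (2 * w : ℝ) := av_ind v t

/-- number of coincidences -/
noncomputable def I1 (a b : Fin (o + w) → ℤ) (s1 : St w) : ℝ :=
  iE (a + dir o s1) a + iE (a + dir o s1) b

noncomputable def I2 (a b : Fin (o + w) → ℤ) (s1 s2 : St w) : ℝ :=
  iE (a + dir o s1 + dir o s2) a + iE (a + dir o s1 + dir o s2) (a + dir o s1) +
    iE (a + dir o s1 + dir o s2) b

noncomputable def I3 (a b : Fin (o + w) → ℤ) (s1 s2 s3 : St w) : ℝ :=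
  iE (a + dir o s1 + dir o s2 + dir o s3) a + iE (a + dir o s1 + dir o s2 + dir o s3) (a + dir o s1) +
    iE (a + dir o s1 + dir o s2 + dir o s3) (a + dir o s1 + dir o s2) +
    iE (a + dir o s1 + dir o s2 + dir o s3) b

noncomputable def I4 (a b : Fin (o + w) → ℤ) (s1 s2 s3 s4 : St w) : ℝ :=
  iE (a + dir o s1 + dir o s2 + dir o s3 + dir o s4) a +
    iE (a + dir o s1 + dir o s2 + dir o s3 + dir o s4) (a + dir o s1) +
    iE (a + dir o s1 + dir o s2 + dir o s3 + dir o s4) (a + dir o s1 + dir o s2) +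
    iE (a + dir o s1 + dir o s2 + dir o s3 + dir o s4) (a + dir o s1 + dir o s2 + dir o s3) +
    iE (a + dir o s1 + dir o s2 + dir o s3 + dir o s4) b

theorem av4_coin (hw : 0 < w) (Q C : ℝ) (hC : 0 ≤ C) (a b : Fin (o + w) → ℤ) :
    av4 (fun s => Q + C * (I1 a b s.1 + I2 a b s.1 s.2.1 + I3 a b s.1 s.2.1 s.2.2.1 +
      I4 a b s.1 s.2.1 s.2.2.1 s.2.2.2)) ≤ Q + C * (14 / (2 * w)) := by
  have hD : (0 : ℝ) < 2 * w := by positivity
  have k4 : ∀ s1 s2 s3 : St w, av (fun s4 => I4 a b s1 s2 s3 s4) ≤ 5 / (2 * w) := by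
    intro s1 s2 s3
    unfold I4
    simp only [av_add]
    have h := fun t => av_iE (a + dir o s1 + dir o s2 + dir o s3) t
    have h1 := h a
    have h2 := h (a + dir o s1)
    have h3 := h (a + dir o s1 + dir o s2)
    have h4 := h (a + dir o s1 + dir o s2 + dir o s3)
    have h5 := h b
    have e : 5 / (2 * (w : ℝ)) = 1 / (2 * w) + 1 / (2 * w) + 1 / (2 * w) + 1 / (2 * w) + 1 / (2 * w) := by
      ring
    rw [e]
    linarith
  have k3 : ∀ s1 s2 : St w, av (fun s3 => I3 a b s1 s2 s3) ≤ 4 / (2 * w) := by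
    intro s1 s2
    unfold I3
    simp only [av_add]
    have h := fun t => av_iE (a + dir o s1 + dir o s2) t
    have h1 := h a
    have h2 := h (a + dir o s1)
    have h3 := h (a + dir o s1 + dir o s2)
    have h5 := h b
    have e : 4 / (2 * (w : ℝ)) = 1 / (2 * w) + 1 / (2 * w) + 1 / (2 * w) + 1 / (2 * w) := by
      ring
    rw [e]
    linarith
  have k2 : ∀ s1 : St w, av (fun s2 => I2 a b s1 s2) ≤ 3 / (2 * w) := by
    intro s1
    unfold I2
    simp only [av_add]
    have h := fun t => av_iE (a + dir o s1) t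
    have h1 := h a
    have h2 := h (a + dir o s1)
    have h5 := h b
    have e : 3 / (2 * (w : ℝ)) = 1 / (2 * w) + 1 / (2 * w) + 1 / (2 * w) := by
      ring
    rw [e]
    linarith
  have k1 : av (fun s1 => I1 a b s1) ≤ 2 / (2 * w) := by
    unfold I1
    simp only [av_add]
    have h := fun t => av_iE a t
    have h1 := h a
    have h5 := h b
    have e : 2 / (2 * (w : ℝ)) = 1 / (2 * w) + 1 / (2 * w) := by
      ring
    rw [e]
    linarith
  have e14 : 14 / (2 * (w : ℝ)) = 2 / (2 * w) + 3 / (2 * w) + 4 / (2 * w) + 5 / (2 * w) := by ring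
  unfold av4
  calc av (fun s1 => av fun s2 => av fun s3 => av fun s4 => Q + C * (I1 a b s1 + I2 a b s1 s2 +
        I3 a b s1 s2 s3 + I4 a b s1 s2 s3 s4))
      ≤ av (fun s1 => av fun s2 => av fun s3 => Q + C * ((I1 a b s1 + I2 a b s1 s2 + 5 / (2 * w)) +
        I3 a b s1 s2 s3)) := by
        refine av_mono fun s1 => av_mono fun s2 => av_mono fun s3 => ?_
        refine (av_shift hw Q C _ _ hC _ (k4 s1 s2 s3)).trans (le_of_eq ?_)
        ring
    _ ≤ av (fun s1 => av fun s2 => Q + C * ((I1 a b s1 + 9 / (2 * w)) + I2 a b s1 s2)) := by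
        refine av_mono fun s1 => av_mono fun s2 => ?_
        refine (av_shift hw Q C _ _ hC _ (k3 s1 s2)).trans (le_of_eq ?_)
        ring
    _ ≤ av (fun s1 => Q + C * (12 / (2 * w) + I1 a b s1)) := by
        refine av_mono fun s1 => ?_
        refine (av_shift hw Q C _ _ hC _ (k2 s1)).trans (le_of_eq ?_)
        ring
    _ ≤ Q + C * (14 / (2 * w)) := by
        refine (av_shift hw Q C _ _ hC _ k1).trans (le_of_eq ?_)
        ring

theorem iE_zero {u v : Fin (o + w) → ℤ} (h : iE u v < 1) : u ≠ v := by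
  unfold iE at h
  split_ifs at h with h1
  · exact absurd h (lt_irrefl _)
  · exact h1

theorem AA_four (a b : Fin (o + w) → ℤ) (s : S4 w) {x : ℝ} (hx : 0 ≤ x) :
    AA (W4 a s) x (end4 a s) 4 b ≤ x ^ 4 + (4 * x) ^ 4 * (I1 a b s.1 + I2 a b s.1 s.2.1 +
      I3 a b s.1 s.2.1 s.2.2.1 + I4 a b s.1 s.2.1 s.2.2.1 s.2.2.2) := by
  classical
  obtain ⟨s1, s2, s3, s4⟩ := s
  set S := I1 a b s1 + I2 a b s1 s2 + I3 a b s1 s2 s3 + I4 a b s1 s2 s3 s4 with hS
  show AA (W4 a (s1, s2, s3, s4)) x (end4 a (s1, s2, s3, s4)) 4 b ≤ x ^ 4 + (4 * x) ^ 4 * S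
  have nn := fun u v : Fin (o + w) → ℤ => iE_nonneg u v
  by_cases hbig : 1 ≤ S
  · have h1 := AA_le (W4 a (s1, s2, s3, s4)) (card_W4 _ _) hx (end4 a (s1, s2, s3, s4)) 4 b
    have h2 : (0 : ℝ) ≤ (4 * x) ^ 4 := by positivity
    have h3 : (0 : ℝ) ≤ x ^ 4 := by positivity
    nlinarith
  · push Not at hbig
    set v1 := a + dir o s1 with hv1
    set v2 := v1 + dir o s2 with hv2
    set v3 := v2 + dir o s3 with hv3
    set v4 := v3 + dir o s4 with hv4
    have hS' : S = iE v1 a + iE v1 b + (iE v2 a + iE v2 v1 + iE v2 b) +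
        (iE v3 a + iE v3 v1 + iE v3 v2 + iE v3 b) + (iE v4 a + iE v4 v1 + iE v4 v2 + iE v4 v3 + iE v4 b) := rfl
    rw [hS'] at hbig
    have m1 := nn v1 a
    have m2 := nn v1 b
    have m3 := nn v2 a
    have m4 := nn v2 v1
    have m5 := nn v2 b
    have m6 := nn v3 a
    have m7 := nn v3 v1
    have m8 := nn v3 v2
    have m9 := nn v3 b
    have m10 := nn v4 a
    have m11 := nn v4 v1
    have m12 := nn v4 v2
    have m13 := nn v4 v3
    have m14 := nn v4 b
    have d1 : v1 ≠ a := iE_zero (by linarith)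
    have d2 : v1 ≠ b := iE_zero (by linarith)
    have d3 : v2 ≠ a := iE_zero (by linarith)
    have d4 : v2 ≠ v1 := iE_zero (by linarith)
    have d5 : v2 ≠ b := iE_zero (by linarith)
    have d6 : v3 ≠ a := iE_zero (by linarith)
    have d7 : v3 ≠ v1 := iE_zero (by linarith)
    have d8 : v3 ≠ v2 := iE_zero (by linarith)
    have d9 : v3 ≠ b := iE_zero (by linarith)
    have d10 : v4 ≠ a := iE_zero (by linarith)
    have d11 : v4 ≠ v1 := iE_zero (by linarith)
    have d12 : v4 ≠ v2 := iE_zero (by linarith)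
    have d13 : v4 ≠ v3 := iE_zero (by linarith)
    have d14 : v4 ≠ b := iE_zero (by linarith)
    have hS0 : 0 ≤ S := by rw [hS']; linarith
    have h2 : (0 : ℝ) ≤ (4 * x) ^ 4 * S := by positivity
    have hv : ∀ i, vv a (s1, s2, s3, s4) i = if i = 0 then a else if i = 1 then v1 else
        if i = 2 then v2 else if i = 3 then v3 else v4 := by
      intro i
      match i with
      | 0 => rfl
      | 1 => rfl
      | 2 => rfl
      | 3 => rfl
      | n + 4 => simp [vv, end4, hv4, hv3, hv2, hv1]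
    by_cases hab : b = a
    · subst hab
      have hinj : ∀ i ≤ 4, ∀ j ≤ 4, vv b (s1, s2, s3, s4) i = vv b (s1, s2, s3, s4) j → i = j := by
        intro i hi j hj h
        rw [hv i, hv j] at h
        interval_cases i <;> interval_cases j <;> simp at h ⊢ <;>
          first
          | exact (d1 h) | exact (d1 h.symm) | exact (d3 h) | exact (d3 h.symm)
          | exact (d4 h) | exact (d4 h.symm) | exact (d6 h) | exact (d6 h.symm)
          | exact (d7 h) | exact (d7 h.symm) | exact (d8 h) | exact (d8 h.symm)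
          | exact (d10 h) | exact (d10 h.symm) | exact (d11 h) | exact (d11 h.symm)
          | exact (d12 h) | exact (d12 h.symm) | exact (d13 h) | exact (d13 h.symm)
      have h3 := (path_AA (W4 b (s1, s2, s3, s4)) (vv b (s1, s2, s3, s4)) 4 hx
        (fun e he => W4_joins _ _ e he) hinj 4 le_rfl).2
      have e1 : vv b (s1, s2, s3, s4) 4 = end4 b (s1, s2, s3, s4) := rfl
      have e2 : vv b (s1, s2, s3, s4) (4 - 4) = b := rfl
      rw [e1, e2] at h3
      linarith
    · have h3 : b ∉ supp (W4 a (s1, s2, s3, s4)) (end4 a (s1, s2, s3, s4)) := by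
        intro hb
        unfold supp at hb
        rw [mem_insert, mem_union, mem_image, mem_image] at hb
        rcases hb with hb | ⟨e, he, hb⟩ | ⟨e, he, hb⟩
        · exact d14 hb.symm
        · obtain ⟨k, hk, hj⟩ := W4_joins _ _ e he
          rw [hv, hv] at hj
          have : b = (if k = 0 then a else if k = 1 then v1 else if k = 2 then v2 else if k = 3 then v3 else v4) ∨
              b = (if k + 1 = 0 then a else if k + 1 = 1 then v1 else if k + 1 = 2 then v2 else if k + 1 = 3 then v3 else v4) := by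
            rcases hj with ⟨q, _⟩ | ⟨q, _⟩
            · left; rw [← hb]; exact q.symm
            · right; rw [← hb]; exact q.symm
          interval_cases k <;> simp at this <;>
            rcases this with q | q <;>
            first
            | exact hab q | exact d2 q.symm | exact d5 q.symm | exact d9 q.symm | exact d14 q.symm
        · obtain ⟨k, hk, hj⟩ := W4_joins _ _ e he
          rw [hv, hv] at hj
          have : b = (if k = 0 then a else if k = 1 then v1 else if k = 2 then v2 else if k = 3 then v3 else v4) ∨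
              b = (if k + 1 = 0 then a else if k + 1 = 1 then v1 else if k + 1 = 2 then v2 else if k + 1 = 3 then v3 else v4) := by
            rcases hj with ⟨_, q⟩ | ⟨_, q⟩
            · right; rw [← hb]; exact q.symm
            · left; rw [← hb]; exact q.symm
          interval_cases k <;> simp at this <;>
            rcases this with q | q <;>
            first
            | exact hab q | exact d2 q.symm | exact d5 q.symm | exact d9 q.symm | exact d14 q.symm
      rw [AA_supp _ _ _ _ _ h3]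
      positivity

end Pool.Agent.TH967.MC
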