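import Pool.Agent.TH967.MC.Macro

set_option autoImplicit false

namespace Pool.Agent.TH967.MC

open Finset

variable {o w : ℕ}

theorem sum_delta (j : Fin o) (A B : ℝ) :
    ∑ j' : Fin o, (A + B * (if j = j' then 1 else 0)) = o * A + B := by
  rw [sum_add_distrib, ← mul_sum, sum_ite_eq]
  simp

theorem avM_two (ho : 0 < o) (hw : 0 < w) (F : ℝ) (h : Fin o → Fin o → ℝ) :
    avM (fun m : MS o w => avM fun m' : MS o w => 1 + F * h m.2 m'.2) =
      1 + F * ((∑ j, ∑ j', h j j') / (o : ℝ) ^ 2) := by
  have ho' : (0 : ℝ) < o := by exact_mod_cast ho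
  have e1 : ∀ m : MS o w, avM (fun m' : MS o w => 1 + F * h m.2 m'.2) =
      1 + F * ((∑ j', h m.2 j') / o) := by
    intro m
    rw [avM_fst hw (fun j' => 1 + F * h m.2 j'), sum_add_distrib, ← mul_sum]
    simp only [sum_const, card_univ, Fintype.card_fin, nsmul_eq_mul, mul_one]
    field_simp
  simp only [e1]
  rw [avM_fst hw (fun j => 1 + F * ((∑ j', h j j') / o)), sum_add_distrib, ← mul_sum, ← sum_div]
  simp only [sum_const, card_univ, Fintype.card_fin, nsmul_eq_mul, mul_one]
  field_simp

theorem step_two (ho : 0 < o) (hw : 0 < w) (F : ℝ) (N : ℕ) (δ : Fin o → ℤ) :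
    avM (fun m : MS o w => avM fun m' : MS o w =>
      1 + F * ((if δ + Pi.single m.2 1 - Pi.single m'.2 1 = 0 then 1 else 0) +
            UU N (δ + Pi.single m.2 1 - Pi.single m'.2 1))) = 1 + F * UU (N + 1) δ := by
  have h := avM_two ho hw F (fun j j' => (if δ + Pi.single j 1 - Pi.single j' 1 = 0 then 1 else 0) +
            UU N (δ + Pi.single j 1 - Pi.single j' 1))
  beta_reduce at h
  rw [h]
  rfl

open Classical in
theorem gg_le (ho : 32 ≤ o) (hw : 0 < w) {c : ℝ} (hc : 1 ≤ c) {F : ℝ} (hF : 1 ≤ F)
    (hrec : (1 + 4 * (c / (2 * w))) ^ 4 * (1 + 7 * F / o) + c * F / o *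
      ((c / (2 * w)) ^ 4 + (14 * (4 * (c / (2 * w))) ^ 4 + BB (c / (2 * w)) 4) / (2 * w)) ≤ F)
    (N : ℕ) (a b : Fin (o + w) → ℤ) :
    gg c N a b ≤ if yp w a = yp w b then F else 1 + F * UU N (yp w a - yp w b) := by
  have ho0 : 0 < o := by omega
  have ho' : (0 : ℝ) < o := by exact_mod_cast ho0
  have hF0 : 0 ≤ F := by linarith
  induction N generalizing a b with
  | zero =>
    unfold gg
    split_ifs with h
    · exact hF
    · have : 0 ≤ F * UU 0 (yp w a - yp w b) := mul_nonneg hF0 (UU_nonneg _ _)
      linarith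
  | succ N ih =>
    split_ifs with h
    · -- same projection
      unfold gg
      have h1 : ∀ m m' : MS o w, c ^ (ME a m ∩ ME b m').card * gg c N (mv a m) (mv b m') ≤
          c ^ (W4 a m.1 ∩ W4 b m'.1).card * ((1 + 6 * F / o) + F * (if m.2 = m'.2 then 1 else 0)) +
          (c * F) * ((c ^ (W4 a m.1 ∩ W4 b m'.1).card * (if end4 a m.1 = end4 b m'.1 then 1 else 0)) *
            (0 + 1 * (if m.2 = m'.2 then 1 else 0))) := by
        intro m m'
        have h2 := ih (mv a m) (mv b m')
        rw [yp_mv, yp_mv, h] at h2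
        have h3 := ME_card a b m m' hc
        have hP : (0 : ℝ) ≤ c ^ (W4 a m.1 ∩ W4 b m'.1).card := by positivity
        have hg := gg_nonneg hc N (mv a m) (mv b m')
        by_cases hj : m.2 = m'.2
        · rw [if_pos (by rw [hj])] at h2
          rw [if_pos hj] at h3 ⊢
          set E : ℝ := if end4 a m.1 = end4 b m'.1 then 1 else 0 with hE
          have hE0 : 0 ≤ E := by rw [hE]; split_ifs <;> norm_num
          set P := c ^ (W4 a m.1 ∩ W4 b m'.1).card with hPdef
          calc c ^ (ME a m ∩ ME b m').card * gg c N (mv a m) (mv b m')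
              ≤ (P * (1 + c * E)) * F := mul_le_mul h3 h2 hg (by positivity)
            _ ≤ _ := by
                have : 0 ≤ P * (1 + 6 * F / o) := by positivity
                nlinarith
        · have hne : yp w b + Pi.single m.2 1 ≠ yp w b + Pi.single m'.2 1 := by
            intro h4
            have h5 := congrFun (add_left_cancel h4) m.2
            rw [Pi.single_eq_same, Pi.single_eq_of_ne hj] at h5
            exact one_ne_zero h5
          rw [if_neg hne] at h2
          rw [if_neg hj] at h3 ⊢
          have h6 := UU_le ho N (yp w b + Pi.single m.2 1 - (yp w b + Pi.single m'.2 1))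
          have h7 : gg c N (mv a m) (mv b m') ≤ 1 + 6 * F / o := by
            have := mul_le_mul_of_nonneg_left h6 hF0
            have e : F * (6 / o) = 6 * F / o := by ring
            linarith
          simp only [mul_zero, add_zero]
          rw [mul_one] at h3
          exact mul_le_mul h3 h7 hg hP
      refine (avM_mono fun m => avM_mono fun m' => h1 m m').trans ?_
      have e1 : ∀ m : MS o w, avM (fun m' : MS o w =>
          c ^ (W4 a m.1 ∩ W4 b m'.1).card * ((1 + 6 * F / o) + F * (if m.2 = m'.2 then 1 else 0)) +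
          (c * F) * ((c ^ (W4 a m.1 ∩ W4 b m'.1).card * (if end4 a m.1 = end4 b m'.1 then 1 else 0)) *
            (0 + 1 * (if m.2 = m'.2 then 1 else 0)))) =
          av4 (fun s' => c ^ (W4 a m.1 ∩ W4 b s').card) * (1 + 7 * F / o) +
          (c * F) * (av4 (fun s' => c ^ (W4 a m.1 ∩ W4 b s').card *
            (if end4 a m.1 = end4 b s' then 1 else 0)) * (1 / o)) := by
        intro m
        rw [avM_add, avM_mul,
          avM_prod (fun s' => c ^ (W4 a m.1 ∩ W4 b s').card)
            (fun j' => (1 + 6 * F / o) + F * (if m.2 = j' then 1 else 0)),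
          avM_prod (fun s' => c ^ (W4 a m.1 ∩ W4 b s').card * (if end4 a m.1 = end4 b s' then 1 else 0))
            (fun j' => 0 + 1 * (if m.2 = j' then 1 else 0)), sum_delta, sum_delta]
        congr 3
        · field_simp
          ring
        · ring
      simp only [e1]
      rw [avM_add, avM_mul,
        avM_prod (fun s => av4 (fun s' => c ^ (W4 a s ∩ W4 b s').card)) (fun _ => 1 + 7 * F / o),
        avM_prod (fun s => av4 (fun s' => c ^ (W4 a s ∩ W4 b s').card *
            (if end4 a s = end4 b s' then 1 else 0))) (fun _ => 1 / (o : ℝ))]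
      simp only [sum_const, card_univ, Fintype.card_fin, nsmul_eq_mul]
      have e2 : ∀ A : ℝ, o * A / o = A := fun A => by field_simp
      rw [e2, e2]
      have hW1 := W1_le hw hc a b
      have hW2 := W2_le hw hc a b
      have k1 : 0 ≤ 1 + 7 * F / o := by positivity
      have k2 : 0 ≤ c * F / o := by positivity
      have g1 := mul_le_mul_of_nonneg_right hW1 k1
      have g2 := mul_le_mul_of_nonneg_left hW2 k2
      refine le_trans ?_ hrec
      refine le_trans (le_of_eq ?_) (add_le_add g1 g2)
      ring
    · -- different projections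
      unfold gg
      obtain ⟨δ, hδ⟩ : ∃ δ, δ = yp w a - yp w b := ⟨_, rfl⟩
      rw [← hδ]
      have h1 : ∀ m m' : MS o w, c ^ (ME a m ∩ ME b m').card * gg c N (mv a m) (mv b m') ≤
          1 + F * ((if δ + Pi.single m.2 1 - Pi.single m'.2 1 = 0 then 1 else 0) +
            UU N (δ + Pi.single m.2 1 - Pi.single m'.2 1)) := by
        intro m m'
        rw [ME_disj h, card_empty, pow_zero, one_mul]
        have h2 := ih (mv a m) (mv b m')
        rw [yp_mv, yp_mv] at h2
        have e3 : yp w a + Pi.single m.2 1 - (yp w b + Pi.single m'.2 1) =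
            δ + Pi.single m.2 1 - Pi.single m'.2 1 := by rw [hδ]; abel
        rw [e3] at h2
        have hU := UU_nonneg N (δ + Pi.single m.2 1 - Pi.single m'.2 1)
        have hFU : 0 ≤ F * UU N (δ + Pi.single m.2 1 - Pi.single m'.2 1) := mul_nonneg hF0 hU
        by_cases he : yp w a + Pi.single m.2 1 = yp w b + Pi.single m'.2 1
        · rw [if_pos he] at h2
          rw [if_pos (by rw [← e3, he, sub_self])]
          linarith
        · rw [if_neg he] at h2
          rw [if_neg (by rw [← e3]; exact sub_ne_zero.mpr he)]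
          linarith
      refine (avM_mono fun m => avM_mono fun m' => h1 m m').trans ?_
      rw [step_two ho0 hw F N δ]

end Pool.Agent.TH967.MC
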