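import Mathlib

set_option autoImplicit false

namespace Pool.Agent.TH967.MC

open Finset

/-- upper bounds for the transition probabilities of the oriented walk in `ℤ^o` -/
noncomputable def Mt (o : ℕ) : ℕ → ℝ
  | 0 => 1
  | t + 1 => Mt o t * (((t : ℝ) + 1) / (o * ((t / o : ℕ) + 1 : ℝ)))

theorem Mt_nonneg (o t : ℕ) : 0 ≤ Mt o t := by
  induction t with
  | zero => simp [Mt]
  | succ t ih => unfold Mt; positivity

theorem ratio_le_one {o : ℕ} (ho : 0 < o) (t : ℕ) :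
    ((t : ℝ) + 1) / (o * ((t / o : ℕ) + 1 : ℝ)) ≤ 1 := by
  rw [div_le_one (by positivity)]
  have h := Nat.lt_mul_div_succ t ho
  have : t + 1 ≤ o * (t / o + 1) := h
  exact_mod_cast this

theorem Mt_anti {o : ℕ} (ho : 0 < o) : Antitone (Mt o) := by
  apply antitone_nat_of_succ_le
  intro t
  show Mt o t * _ ≤ Mt o t
  exact mul_le_of_le_one_right (Mt_nonneg o t) (ratio_le_one ho t)

theorem Mt_first {o : ℕ} (ho : 2 ≤ o) (t : ℕ) (ht : t + 1 ≤ o / 2) :
    Mt o (t + 1) ≤ (1 / o) * (1 / 2) ^ t := by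
  have ho' : (0 : ℝ) < o := by positivity
  induction t with
  | zero => simp [Mt]
  | succ t ih =>
    have h1 := ih (by omega)
    have h2 : (t + 1) / o = 0 := Nat.div_eq_of_lt (by omega)
    have h3 : ((t + 1 : ℕ) : ℝ) + 1 ≤ o / 2 := by
      have : 2 * (t + 1 + 1) ≤ o := by omega
      have : (2 : ℝ) * ((t + 1 : ℕ) + 1) ≤ o := by exact_mod_cast this
      linarith
    have h4 : (((t + 1 : ℕ) : ℝ) + 1) / (o * (((t + 1) / o : ℕ) + 1 : ℝ)) ≤ 1 / 2 := by
      rw [h2, div_le_iff₀ (by positivity)]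
      push_cast at h3 ⊢
      linarith
    show Mt o (t + 1) * _ ≤ _
    calc Mt o (t + 1) * _ ≤ ((1 / o) * (1 / 2) ^ t) * (1 / 2) :=
          mul_le_mul h1 h4 (by positivity) (by positivity)
      _ = _ := by ring

theorem Mt_block {o : ℕ} (ho : 2 ≤ o) (k j : ℕ) (hj : j ≤ o / 2) :
    Mt o (k * o + j) ≤ Mt o (k * o) * (1 - 1 / (2 * ((k : ℝ) + 1))) ^ j := by
  have ho' : (0 : ℝ) < o := by positivity
  have hb : (0 : ℝ) ≤ 1 - 1 / (2 * ((k : ℝ) + 1)) := by
    rw [sub_nonneg, div_le_one (by positivity)]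
    have : (0 : ℝ) ≤ k := by positivity
    linarith
  induction j with
  | zero => simp
  | succ j ih =>
    have h1 := ih (by omega)
    have h2 : (k * o + j) / o = k := by
      rw [Nat.add_comm, Nat.add_mul_div_right _ _ (by omega), Nat.div_eq_of_lt (by omega), zero_add]
    have h3 : ((j : ℕ) : ℝ) + 1 ≤ o / 2 := by
      have : 2 * (j + 1) ≤ o := by omega
      have : (2 : ℝ) * ((j : ℝ) + 1) ≤ o := by exact_mod_cast this
      linarith
    have h4 : (((k * o + j : ℕ) : ℝ) + 1) / (o * (((k * o + j) / o : ℕ) + 1 : ℝ)) ≤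
        1 - 1 / (2 * ((k : ℝ) + 1)) := by
      rw [h2, div_le_iff₀ (by positivity)]
      have e : (1 - 1 / (2 * ((k : ℝ) + 1))) * (o * ((k : ℝ) + 1)) = k * o + o / 2 := by
        field_simp
        ring
      rw [e]
      push_cast
      linarith
    show Mt o (k * o + j) * _ ≤ _
    calc Mt o (k * o + j) * _ ≤ (Mt o (k * o) * (1 - 1 / (2 * ((k : ℝ) + 1))) ^ j) *
          (1 - 1 / (2 * ((k : ℝ) + 1))) :=
          mul_le_mul h1 h4 (by positivity) (mul_nonneg (Mt_nonneg _ _) (pow_nonneg hb _))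
      _ = _ := by ring

theorem Mt_step {o : ℕ} (ho : 8 ≤ o) (k : ℕ) :
    Mt o ((k + 1) * o) ≤ Mt o (k * o) * (((k : ℝ) + 1) / (k + 2)) ^ 2 := by
  have h1 := Mt_block (by omega : 2 ≤ o) k 4 (by omega)
  have h2 : Mt o ((k + 1) * o) ≤ Mt o (k * o + 4) := Mt_anti (by omega) (by nlinarith)
  refine (h2.trans h1).trans (mul_le_mul_of_nonneg_left ?_ (Mt_nonneg _ _))
  have hk : (0 : ℝ) ≤ k := by positivity
  have h3 : (1 - 1 / (2 * ((k : ℝ) + 1))) ^ 2 ≤ ((k : ℝ) + 1) / (k + 2) := by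
    have e : 1 - 1 / (2 * ((k : ℝ) + 1)) = (2 * k + 1) / (2 * (k + 1)) := by
      field_simp; ring
    rw [e, div_pow, div_le_div_iff₀ (by positivity) (by positivity)]
    nlinarith [mul_nonneg hk hk, mul_nonneg (mul_nonneg hk hk) hk]
  have h4 : (0 : ℝ) ≤ (1 - 1 / (2 * ((k : ℝ) + 1))) ^ 2 := sq_nonneg _
  calc (1 - 1 / (2 * ((k : ℝ) + 1))) ^ 4 = ((1 - 1 / (2 * ((k : ℝ) + 1))) ^ 2) ^ 2 := by ring
    _ ≤ _ := pow_le_pow_left₀ h4 h3 2

theorem Mt_mul {o : ℕ} (ho : 8 ≤ o) (k : ℕ) :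
    Mt o ((k + 1) * o) ≤ Mt o (o / 2) * (4 / ((k : ℝ) + 2) ^ 2) := by
  induction k with
  | zero =>
    have : Mt o ((0 + 1) * o) ≤ Mt o (o / 2) := Mt_anti (by omega) (by omega)
    refine this.trans (le_of_eq ?_)
    norm_num
  | succ k ih =>
    refine (Mt_step ho (k + 1)).trans ?_
    calc Mt o ((k + 1) * o) * ((((k + 1 : ℕ) : ℝ) + 1) / ((k + 1 : ℕ) + 2)) ^ 2
        ≤ (Mt o (o / 2) * (4 / ((k : ℝ) + 2) ^ 2)) * ((((k + 1 : ℕ) : ℝ) + 1) / ((k + 1 : ℕ) + 2)) ^ 2 :=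
          mul_le_mul_of_nonneg_right ih (by positivity)
      _ = _ := by
        push_cast
        have : (k : ℝ) + 2 ≠ 0 := by positivity
        have : (k : ℝ) + 1 + 2 ≠ 0 := by positivity
        field_simp
        ring

theorem num1 (t : ℕ) (ht : 1 ≤ t) : (t : ℝ) ^ 2 ≤ 3 * 2 ^ (t - 1) := by
  obtain ⟨u, rfl⟩ : ∃ u, t = u + 1 := ⟨t - 1, by omega⟩
  rw [Nat.add_sub_cancel]
  have : (u + 1) ^ 2 ≤ 3 * 2 ^ u := by
    induction u with
    | zero => norm_num
    | succ u ih =>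
      rcases Nat.lt_or_ge u 2 with h | h
      · interval_cases u <;> norm_num
      · have := ih (by omega)
        rw [pow_succ 2 u]
        nlinarith
  exact_mod_cast this

theorem num2 (h : ℕ) (hh : 12 ≤ h) : 4 * (2 * (h : ℝ) + 1) ^ 2 ≤ 3 * 2 ^ (h - 1) := by
  obtain ⟨u, rfl⟩ : ∃ u, h = u + 12 := ⟨h - 12, by omega⟩
  have e : u + 12 - 1 = u + 11 := by omega
  rw [e]
  clear e hh
  have : 4 * (2 * (u + 12) + 1) ^ 2 ≤ 3 * 2 ^ (u + 11) := by
    induction u with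
    | zero => norm_num
    | succ u ih =>
      have e2 : 2 ^ (u + 1 + 11) = 2 ^ (u + 11) * 2 := by rw [← pow_succ]
      rw [e2]
      generalize 2 ^ (u + 11) = P at ih ⊢
      have h9 : (2 * (u + 1 + 12) + 1) ^ 2 ≤ 2 * (2 * (u + 12) + 1) ^ 2 := by
        ring_nf
        nlinarith [Nat.zero_le (u ^ 2), Nat.zero_le u]
      omega
  exact_mod_cast this

theorem Mt_le {o : ℕ} (ho : 32 ≤ o) (t : ℕ) (ht : 1 ≤ t) : Mt o t ≤ 3 / (o * (t : ℝ) ^ 2) := by
  have ho' : (0 : ℝ) < o := by positivity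
  have ht' : (0 : ℝ) < t := by exact_mod_cast ht
  rcases Nat.lt_or_ge (o / 2) t with h | h
  · -- large times
    have hM : Mt o (o / 2) ≤ (1 / o) * (1 / 2) ^ (o / 2 - 1) := by
      have := Mt_first (by omega : 2 ≤ o) (o / 2 - 1) (by omega)
      rwa [Nat.sub_add_cancel (by omega)] at this
    have hN := num2 (o / 2) (by omega)
    have ho2 : (o : ℝ) ≤ 2 * ((o / 2 : ℕ) : ℝ) + 1 := by
      have : o ≤ 2 * (o / 2) + 1 := by omega
      exact_mod_cast this
    have hp : (0 : ℝ) < 2 ^ (o / 2 - 1) := by positivity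
    have hM2 : 4 * (o : ℝ) ^ 2 * Mt o (o / 2) ≤ 3 / o := by
      have h5 : 4 * (o : ℝ) ^ 2 ≤ 3 * 2 ^ (o / 2 - 1) := by nlinarith
      calc 4 * (o : ℝ) ^ 2 * Mt o (o / 2) ≤ (3 * 2 ^ (o / 2 - 1)) * ((1 / o) * (1 / 2) ^ (o / 2 - 1)) :=
            mul_le_mul h5 hM (Mt_nonneg _ _) (by positivity)
        _ = 3 / o := by
            rw [one_div, one_div, inv_pow]
            field_simp
    have key : Mt o t ≤ Mt o (o / 2) * (4 * (o : ℝ) ^ 2 / (t : ℝ) ^ 2) := by
      have hk : (t : ℝ) < (((t / o : ℕ) : ℝ) + 1) * o := by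
        have : t < o * (t / o + 1) := Nat.lt_mul_div_succ t (by omega)
        have : (t : ℝ) < o * (((t / o : ℕ) : ℝ) + 1) := by exact_mod_cast this
        linarith
      rcases Nat.eq_zero_or_pos (t / o) with h0 | h0
      · rw [h0] at hk
        have h6 : Mt o t ≤ Mt o (o / 2) := Mt_anti (by omega) h.le
        refine h6.trans ?_
        apply le_mul_of_one_le_right (Mt_nonneg _ _)
        rw [one_le_div (by positivity)]
        have hk' : (t : ℝ) < o := by simpa using hk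
        nlinarith
      · obtain ⟨k, hk2⟩ : ∃ k, t / o = k + 1 := ⟨t / o - 1, by omega⟩
        have h6 : Mt o t ≤ Mt o ((k + 1) * o) := by
          apply Mt_anti (by omega)
          rw [← hk2]
          exact Nat.div_mul_le_self t o
        refine h6.trans ((Mt_mul (by omega) k).trans ?_)
        apply mul_le_mul_of_nonneg_left _ (Mt_nonneg _ _)
        rw [hk2] at hk
        push_cast at hk
        rw [div_le_div_iff₀ (by positivity) (by positivity)]
        have h7 : (t : ℝ) ≤ ((k : ℝ) + 2) * o := by linarith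
        have h8 : (t : ℝ) ^ 2 ≤ (((k : ℝ) + 2) * o) ^ 2 := pow_le_pow_left₀ ht'.le h7 2
        nlinarith
    calc Mt o t ≤ Mt o (o / 2) * (4 * (o : ℝ) ^ 2 / (t : ℝ) ^ 2) := key
      _ = (4 * (o : ℝ) ^ 2 * Mt o (o / 2)) / (t : ℝ) ^ 2 := by ring
      _ ≤ (3 / o) / (t : ℝ) ^ 2 := by gcongr
      _ = _ := by rw [div_div]
  · obtain ⟨u, rfl⟩ : ∃ u, t = u + 1 := ⟨t - 1, by omega⟩
    have h1 := Mt_first (by omega : 2 ≤ o) u (by omega)
    refine h1.trans ?_
    have h2 := num1 (u + 1) (by omega)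
    rw [Nat.add_sub_cancel] at h2
    have hp : (0 : ℝ) < 2 ^ u := by positivity
    have e : (1 / (o : ℝ)) * (1 / 2) ^ u = 1 / (o * 2 ^ u) := by
      rw [one_div_pow]; field_simp
    rw [e, div_le_div_iff₀ (by positivity) (by positivity)]
    nlinarith

theorem sum_inv_sq (N : ℕ) : ∑ t ∈ range N, 1 / ((t : ℝ) + 1) ^ 2 ≤ 2 := by
  rcases Nat.eq_zero_or_pos N with h0 | h0
  · subst h0; norm_num
  obtain ⟨M, rfl⟩ : ∃ M, N = M + 1 := ⟨N - 1, by omega⟩
  have : ∑ t ∈ range (M + 1), 1 / ((t : ℝ) + 1) ^ 2 ≤ 2 - 1 / ((M : ℝ) + 1) := by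
    clear h0
    induction M with
    | zero => norm_num
    | succ M ih =>
      rw [sum_range_succ]
      have h1 : 1 / (((M + 1 : ℕ) : ℝ) + 1) ^ 2 ≤
          1 / ((M : ℝ) + 1) - 1 / (((M + 1 : ℕ) : ℝ) + 1) := by
        push_cast
        have e : 1 / ((M : ℝ) + 1) - 1 / (M + 1 + 1) = 1 / ((M + 1) * (M + 1 + 1)) := by
          field_simp; ring
        rw [e, div_le_div_iff₀ (by positivity) (by positivity)]
        have : (0 : ℝ) ≤ M := by positivity
        nlinarith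
      linarith
  have h2 : (0 : ℝ) < 1 / ((M : ℝ) + 1) := by positivity
  linarith

theorem sum_Mt {o : ℕ} (ho : 32 ≤ o) (N : ℕ) : ∑ t ∈ range N, Mt o (t + 1) ≤ 6 / o := by
  have ho' : (0 : ℝ) < o := by positivity
  calc ∑ t ∈ range N, Mt o (t + 1) ≤ ∑ t ∈ range N, (3 / o) * (1 / ((t : ℝ) + 1) ^ 2) := by
        apply sum_le_sum
        intro t _
        refine (Mt_le ho (t + 1) (by omega)).trans (le_of_eq ?_)
        push_cast
        rw [div_mul_div_comm, mul_one]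
    _ = (3 / o) * ∑ t ∈ range N, 1 / ((t : ℝ) + 1) ^ 2 := by rw [mul_sum]
    _ ≤ (3 / o) * 2 := mul_le_mul_of_nonneg_left (sum_inv_sq N) (by positivity)
    _ = 6 / o := by ring

end Pool.Agent.TH967.MC
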