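import Pool.Agent.TH967.MC.Moment

set_option autoImplicit false

namespace Pool.Agent.TH967.MC

open Finset MeasureTheory

variable {o w : ℕ}

/-- far from the box -/
def Good (j0 : Fin o) (s : ℤ) (a : Fin (o + w) → ℤ) (A : Finset (Edge (o + w))) : Prop :=
  s ≤ yp w a j0 ∧ ∀ e ∈ A, s ≤ yp w e.1 j0

theorem Good.step {j0 : Fin o} {s : ℤ} {a : Fin (o + w) → ℤ} {A : Finset (Edge (o + w))}
    (h : Good j0 s a A) (m : MS o w) : open Classical in Good j0 s (mv a m) (A ∪ ME a m) := by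
  classical
  refine ⟨?_, ?_⟩
  · rw [yp_mv, Pi.add_apply]
    have : (0 : ℤ) ≤ (Pi.single m.2 1 : Fin o → ℤ) j0 := by
      by_cases hj : j0 = m.2
      · rw [hj, Pi.single_eq_same]; norm_num
      · rw [Pi.single_eq_of_ne hj]
    have := h.1
    omega
  · intro e he
    rcases mem_union.mp he with he | he
    · exact h.2 e he
    · rw [yp_ME a m e he]; exact h.1

section
variable (p : unitInterval) {T Z : Finset (Edge (o + w))} {j0 : Fin o} {s : ℤ}

theorem first_moment (hTZ : Disjoint T Z) (hlt : ∀ e, e ∈ T ∨ e ∈ Z → yp w e.1 j0 < s)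
    {c : ℝ} (hc : c * (p : ℝ) = 1) (N : ℕ) (a : Fin (o + w) → ℤ) (A : Finset (Edge (o + w)))
    (ho : 0 < o) (hw : 0 < w) (hg : Good j0 s a A) :
    Integrable (fun ω => XX c ω N a A) ((perc (o + w) p).restrict (CC T Z)) ∧
      ∫ ω, XX c ω N a A ∂((perc (o + w) p).restrict (CC T Z)) =
        (p : ℝ) ^ T.card * (1 - (p : ℝ)) ^ Z.card := by
  classical
  induction N generalizing a A with
  | zero =>
    have h1 := indic_int (ν := (perc (o + w) p).restrict (CC T Z)) (meas_open A) (c ^ A.card)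
    have hA : ∀ e ∈ A, e ∉ T ∧ e ∉ Z := by
      intro e he
      have h2 := hg.2 e he
      exact ⟨fun h => by have := hlt e (Or.inl h); omega, fun h => by have := hlt e (Or.inr h); omega⟩
    have h3 := prob_CC p T Z A hTZ hA
    have e1 : (fun ω : Edge (o + w) → Bool => XX c ω 0 a A) =
        fun ω => Set.indicator {ω : Edge (o + w) → Bool | ∀ e ∈ A, ω e = true} (fun _ => c ^ A.card) ω := by
      funext ω
      unfold XX
      by_cases h : ∀ e ∈ A, ω e = true
      · rw [if_pos h, Set.indicator_of_mem (show ω ∈ {ω : Edge (o + w) → Bool | ∀ e ∈ A, ω e = true} from h)]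
      · rw [if_neg h, Set.indicator_of_notMem (show ω ∉ {ω : Edge (o + w) → Bool | ∀ e ∈ A, ω e = true} from h)]
    rw [e1]
    refine ⟨h1.1, h1.2.trans ?_⟩
    rw [h3, pow_add]
    have e2 : c ^ A.card * (p : ℝ) ^ A.card = 1 := by rw [← mul_pow, hc, one_pow]
    calc c ^ A.card * ((p : ℝ) ^ T.card * (p : ℝ) ^ A.card * (1 - (p : ℝ)) ^ Z.card) =
        (c ^ A.card * (p : ℝ) ^ A.card) * ((p : ℝ) ^ T.card * (1 - (p : ℝ)) ^ Z.card) := by ring
      _ = _ := by rw [e2, one_mul]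
  | succ N ih =>
    unfold XX
    have h1 := avM_int (ν := (perc (o + w) p).restrict (CC T Z))
      (f := fun (m : MS o w) ω => XX c ω N (mv a m) (A ∪ ME a m)) (fun m => (ih _ _ (hg.step m)).1)
    refine ⟨h1.1, h1.2.trans ?_⟩
    have h2 : (fun m : MS o w => ∫ ω, XX c ω N (mv a m) (A ∪ ME a m)
        ∂((perc (o + w) p).restrict (CC T Z))) = fun _ => (p : ℝ) ^ T.card * (1 - (p : ℝ)) ^ Z.card := by
      funext m
      exact (ih _ _ (hg.step m)).2
    rw [h2, avM_const ho hw]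

theorem avM_mul_avM (f g : MS o w → ℝ) :
    avM f * avM g = avM fun m => avM fun m' => f m * g m' := by
  have h1 : ∀ m, (avM fun m' => f m * g m') = avM g * f m := by
    intro m
    rw [avM_mul, mul_comm]
  simp only [h1]
  rw [avM_mul, mul_comm]

theorem second_moment (hTZ : Disjoint T Z) (hlt : ∀ e, e ∈ T ∨ e ∈ Z → yp w e.1 j0 < s)
    {c : ℝ} (hc : c * (p : ℝ) = 1) (N : ℕ) (a b : Fin (o + w) → ℤ) (A B : Finset (Edge (o + w)))
    (hg : Good j0 s a A) (hg' : Good j0 s b B) :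
    Integrable (fun ω => XX c ω N a A * XX c ω N b B) ((perc (o + w) p).restrict (CC T Z)) ∧
      ∫ ω, XX c ω N a A * XX c ω N b B ∂((perc (o + w) p).restrict (CC T Z)) =
        (p : ℝ) ^ T.card * (1 - (p : ℝ)) ^ Z.card * YY c N a A b B := by
  classical
  induction N generalizing a b A B with
  | zero =>
    have h1 := indic_int (ν := (perc (o + w) p).restrict (CC T Z)) (meas_open (A ∪ B))
      (c ^ (A.card + B.card))
    have hA : ∀ e ∈ A ∪ B, e ∉ T ∧ e ∉ Z := by
      intro e he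
      have h2 : s ≤ yp w e.1 j0 := by
        rcases mem_union.mp he with he | he
        · exact hg.2 e he
        · exact hg'.2 e he
      exact ⟨fun h => by have := hlt e (Or.inl h); omega, fun h => by have := hlt e (Or.inr h); omega⟩
    have h3 := prob_CC p T Z (A ∪ B) hTZ hA
    have e1 : (fun ω : Edge (o + w) → Bool => XX c ω 0 a A * XX c ω 0 b B) =
        fun ω => Set.indicator {ω : Edge (o + w) → Bool | ∀ e ∈ A ∪ B, ω e = true}
          (fun _ => c ^ (A.card + B.card)) ω := by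
      funext ω
      unfold XX
      by_cases hA1 : ∀ e ∈ A, ω e = true
      · by_cases hB1 : ∀ e ∈ B, ω e = true
        · rw [if_pos hA1, if_pos hB1, Set.indicator_of_mem, pow_add]
          intro e he
          exact (mem_union.mp he).elim (hA1 e) (hB1 e)
        · rw [if_pos hA1, if_neg hB1, Set.indicator_of_notMem, mul_zero]
          intro h
          exact hB1 fun e he => h e (mem_union_right _ he)
      · rw [if_neg hA1, Set.indicator_of_notMem, zero_mul]
        intro h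
        exact hA1 fun e he => h e (mem_union_left _ he)
    rw [e1]
    refine ⟨h1.1, h1.2.trans ?_⟩
    rw [h3]
    unfold YY
    have e2 : c ^ (A ∪ B).card * (p : ℝ) ^ (A ∪ B).card = 1 := by rw [← mul_pow, hc, one_pow]
    have e3 : A.card + B.card = (A ∪ B).card + (A ∩ B).card := (card_union_add_card_inter A B).symm
    rw [e3, pow_add, pow_add]
    calc c ^ (A ∪ B).card * c ^ (A ∩ B).card *
          ((p : ℝ) ^ T.card * (p : ℝ) ^ (A ∪ B).card * (1 - (p : ℝ)) ^ Z.card) =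
        (c ^ (A ∪ B).card * (p : ℝ) ^ (A ∪ B).card) *
          ((p : ℝ) ^ T.card * (1 - (p : ℝ)) ^ Z.card * c ^ (A ∩ B).card) := by ring
      _ = _ := by rw [e2, one_mul]
  | succ N ih =>
    unfold XX YY
    simp only [avM_mul_avM]
    have h0 := fun m : MS o w => avM_int (ν := (perc (o + w) p).restrict (CC T Z))
      (f := fun (m' : MS o w) ω => XX c ω N (mv a m) (A ∪ ME a m) * XX c ω N (mv b m') (B ∪ ME b m'))
      (fun m' => (ih _ _ _ _ (hg.step m) (hg'.step m')).1)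
    have h1 := avM_int (ν := (perc (o + w) p).restrict (CC T Z))
      (f := fun (m : MS o w) ω => avM fun m' : MS o w =>
        XX c ω N (mv a m) (A ∪ ME a m) * XX c ω N (mv b m') (B ∪ ME b m')) (fun m => (h0 m).1)
    refine ⟨h1.1, h1.2.trans ?_⟩
    rw [← avM_mul]
    congr 1
    funext m
    rw [(h0 m).2, ← avM_mul]
    congr 1
    funext m'
    exact (ih _ _ _ _ (hg.step m) (hg'.step m')).2

/-- `a` is joined to a vertex at least `N` levels higher -/
def UpTo (a : Fin (o + w) → ℤ) (N : ℕ) : Set (Edge (o + w) → Bool) :=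
  {ω | ∃ v, lev w a + N ≤ lev w v ∧ Relation.ReflTransGen (Adj ω) a v}

theorem meas_UpTo (a : Fin (o + w) → ℤ) (N : ℕ) : MeasurableSet (UpTo a N) := by
  have e : UpTo a N = ⋃ v : {v : Fin (o + w) → ℤ // lev w a + N ≤ lev w v},
      {ω | Relation.ReflTransGen (Adj ω) a v.1} := by
    ext ω
    simp only [UpTo, Set.mem_ofPred_eq, Set.mem_iUnion, Subtype.exists, exists_prop]
  rw [e]
  exact MeasurableSet.iUnion fun v => meas_conn a v.1

theorem UpTo_anti (a : Fin (o + w) → ℤ) : Antitone (UpTo (o := o) (w := w) a) := by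
  intro M N hMN ω h
  obtain ⟨v, h1, h2⟩ := h
  refine ⟨v, ?_, h2⟩
  have : (M : ℤ) ≤ N := by exact_mod_cast hMN
  omega

theorem UpTo_prob (hTZ : Disjoint T Z) (hlt : ∀ e, e ∈ T ∨ e ∈ Z → yp w e.1 j0 < s)
    {c F : ℝ} (hc : c * (p : ℝ) = 1) (hc1 : 1 ≤ c) (hF : 1 ≤ F) (ho : 32 ≤ o) (hw : 0 < w)
    (hrec : (1 + 4 * (c / (2 * w))) ^ 4 * (1 + 7 * F / o) + c * F / o *
      ((c / (2 * w)) ^ 4 + (14 * (4 * (c / (2 * w))) ^ 4 + BB (c / (2 * w)) 4) / (2 * w)) ≤ F)
    (a : Fin (o + w) → ℤ) (ha : s ≤ yp w a j0) (N : ℕ) :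
    (p : ℝ) ^ T.card * (1 - (p : ℝ)) ^ Z.card / F ≤ ((perc (o + w) p).restrict (CC T Z)).real (UpTo a N) := by
  classical
  set ν := (perc (o + w) p).restrict (CC T Z) with hν
  set P0 := (p : ℝ) ^ T.card * (1 - (p : ℝ)) ^ Z.card with hP0
  have hg : Good j0 s a ∅ := ⟨ha, fun e he => absurd he (notMem_empty e)⟩
  have ho0 : 0 < o := by omega
  have hp0 : 0 ≤ (p : ℝ) := p.2.1
  have hq0 : 0 ≤ 1 - (p : ℝ) := by linarith [p.2.2]
  have hP00 : 0 ≤ P0 := by positivity
  obtain ⟨i1, m1⟩ := first_moment p hTZ hlt hc N a ∅ ho0 hw hg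
  obtain ⟨i2, m2⟩ := second_moment p hTZ hlt hc N a a ∅ ∅ hg hg
  have hY : YY c N a ∅ a ∅ ≤ F := by
    have h1 := YY_le hc1 N a a ∅ ∅ rfl (fun e he => absurd he (notMem_empty e))
      (fun e he => absurd he (notMem_empty e))
    have h2 := gg_le ho hw hc1 hF hrec N a a
    rw [if_pos rfl] at h2
    simpa using h1.trans (by simpa using h2)
  obtain ⟨i3, m3⟩ := indic_int (ν := ν) (meas_UpTo a N) (F ^ 2)
  have hpt : ∀ ω, 0 ≤ XX c ω N a ∅ * XX c ω N a ∅ - 2 * F * XX c ω N a ∅ +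
      Set.indicator (UpTo a N) (fun _ => F ^ 2) ω := by
    intro ω
    by_cases h0 : XX c ω N a ∅ = 0
    · rw [h0, mul_zero, mul_zero, sub_zero, zero_add]
      exact Set.indicator_nonneg (fun _ _ => by positivity) ω
    · obtain ⟨_, v, h1, h2⟩ := XX_conn N a ∅ h0
      rw [Set.indicator_of_mem (show ω ∈ UpTo a N from ⟨v, h1.ge, h2⟩)]
      nlinarith [sq_nonneg (XX c ω N a ∅ - F)]
  have hint := integral_nonneg (μ := ν) (f := fun ω => XX c ω N a ∅ * XX c ω N a ∅ - 2 * F * XX c ω N a ∅ +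
      Set.indicator (UpTo a N) (fun _ => F ^ 2) ω) hpt
  have i4 : Integrable (fun ω => XX c ω N a ∅ * XX c ω N a ∅ - 2 * F * XX c ω N a ∅) ν :=
    i2.sub (i1.const_mul _)
  rw [integral_add i4 i3, integral_sub i2 (i1.const_mul _), m2,
    integral_const_mul, m1, m3] at hint
  rw [div_le_iff₀ (by linarith)]
  have h4 : P0 * YY c N a ∅ a ∅ ≤ P0 * F := mul_le_mul_of_nonneg_left hY hP00
  have h5 : 0 ≤ F * (ν.real (UpTo a N) * F - P0) := by nlinarith
  have h6 : 0 ≤ ν.real (UpTo a N) * F - P0 := by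
    by_contra h7
    push Not at h7
    nlinarith
  linarith

theorem UpAll_prob (hTZ : Disjoint T Z) (hlt : ∀ e, e ∈ T ∨ e ∈ Z → yp w e.1 j0 < s)
    {c F : ℝ} (hc : c * (p : ℝ) = 1) (hc1 : 1 ≤ c) (hF : 1 ≤ F) (ho : 32 ≤ o) (hw : 0 < w)
    (hrec : (1 + 4 * (c / (2 * w))) ^ 4 * (1 + 7 * F / o) + c * F / o *
      ((c / (2 * w)) ^ 4 + (14 * (4 * (c / (2 * w))) ^ 4 + BB (c / (2 * w)) 4) / (2 * w)) ≤ F)
    (a : Fin (o + w) → ℤ) (ha : s ≤ yp w a j0) :
    (p : ℝ) ^ T.card * (1 - (p : ℝ)) ^ Z.card / F ≤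
      (perc (o + w) p).real (CC T Z ∩ ⋂ N, UpTo a N) := by
  have h1 := tendsto_measure_iInter_atTop (μ := (perc (o + w) p).restrict (CC T Z))
    (fun N => (meas_UpTo a N).nullMeasurableSet) (UpTo_anti a) ⟨0, measure_ne_top _ _⟩
  have h2 := (ENNReal.tendsto_toReal (measure_ne_top _ _)).comp h1
  have h3 := ge_of_tendsto' h2 (fun N => UpTo_prob p hTZ hlt hc hc1 hF ho hw hrec a ha N)
  refine h3.trans (le_of_eq ?_)
  have h4 := measureReal_restrict_apply (μ := perc (o + w) p) (s := CC T Z)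
    (MeasurableSet.iInter fun N => meas_UpTo a N)
  rw [Set.inter_comm, ← h4]
  rfl

end

end Pool.Agent.TH967.MC
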