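import Pool.Agent.TH967.MC.Four

set_option autoImplicit false

namespace Pool.Agent.TH967.MC

open Finset

variable {o w : ℕ}

open Classical in
theorem W1_le (hw : 0 < w) {c : ℝ} (hc : 1 ≤ c) (a b : Fin (o + w) → ℤ) :
    av4 (fun s : S4 w => av4 (fun s' : S4 w => c ^ (W4 a s ∩ W4 b s').card)) ≤
      (1 + 4 * (c / (2 * w))) ^ 4 := by
  have h1 : ∀ s : S4 w, av4 (fun s' : S4 w => c ^ (W4 a s ∩ W4 b s').card) ≤
      (1 + 4 * (c / (2 * w))) ^ 4 := by
    intro s
    have h2 := av4_le_HH (W4 a s) hc (fun _ => 1) (fun _ => zero_le_one) b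
    simp only [mul_one] at h2
    exact h2.trans (HH_one hw _ (card_W4 a s) hc 4 b)
  refine (av4_mono h1).trans ?_
  rw [av4_const hw]

open Classical in
theorem W2_le (hw : 0 < w) {c : ℝ} (hc : 1 ≤ c) (a b : Fin (o + w) → ℤ) :
    av4 (fun s : S4 w => av4 (fun s' : S4 w => c ^ (W4 a s ∩ W4 b s').card *
      (if end4 a s = end4 b s' then 1 else 0))) ≤
      (c / (2 * w)) ^ 4 + (14 * (4 * (c / (2 * w))) ^ 4 + BB (c / (2 * w)) 4) / (2 * w) := by
  set x : ℝ := c / (2 * w) with hx
  have hx0 : 0 ≤ x := by positivity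
  have h1 : ∀ s : S4 w, av4 (fun s' : S4 w => c ^ (W4 a s ∩ W4 b s').card *
      (if end4 a s = end4 b s' then 1 else 0)) ≤
      (x ^ 4 + BB x 4 / (2 * w)) + (4 * x) ^ 4 * (I1 a b s.1 + I2 a b s.1 s.2.1 +
        I3 a b s.1 s.2.1 s.2.2.1 + I4 a b s.1 s.2.1 s.2.2.1 s.2.2.2) := by
    intro s
    have h2 := av4_le_HH (W4 a s) hc (fun u => if u = end4 a s then 1 else 0)
      (fun u => by split_ifs <;> norm_num) b
    have h3 := HH_ind hw _ (card_W4 a s) hc (end4 a s) 4 b
    have h4 := AA_four a b s hx0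
    have h5 : (fun s' : S4 w => c ^ (W4 a s ∩ W4 b s').card *
      (if end4 a s = end4 b s' then (1 : ℝ) else 0)) = (fun s' : S4 w => c ^ (W4 a s ∩ W4 b s').card *
      (if end4 b s' = end4 a s then (1 : ℝ) else 0)) := by
      funext s'
      by_cases h : end4 a s = end4 b s'
      · rw [if_pos h, if_pos h.symm]
      · rw [if_neg h, if_neg (Ne.symm h)]
    rw [h5]
    refine (h2.trans h3).trans ?_
    rw [← hx]
    linarith
  refine (av4_mono h1).trans ((av4_coin hw _ _ (by positivity) a b).trans (le_of_eq ?_))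
  ring

/-- a macro step: four steps in the last coordinates and one upward step -/
abbrev MS (o w : ℕ) := S4 w × Fin o

/-- the upward unit vector -/
def up (w : ℕ) {o : ℕ} (j : Fin o) : Fin (o + w) → ℤ := Pi.single (Fin.castAdd w j) 1

/-- the end of a macro step -/
def mv (a : Fin (o + w) → ℤ) (m : MS o w) : Fin (o + w) → ℤ := end4 a m.1 + up w m.2

open Classical in
/-- the edges of a macro step -/
noncomputable def ME (a : Fin (o + w) → ℤ) (m : MS o w) : Finset (Edge (o + w)) :=
  insert (end4 a m.1, Fin.castAdd w m.2) (W4 a m.1)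

/-- the first `o` coordinates -/
def yp (w : ℕ) {o : ℕ} (v : Fin (o + w) → ℤ) : Fin o → ℤ := fun j => v (Fin.castAdd w j)

/-- sum of the first `o` coordinates -/
def lev (w : ℕ) {o : ℕ} (v : Fin (o + w) → ℤ) : ℤ := ∑ j, yp w v j

theorem ne_cn (j : Fin o) (i : Fin w) : Fin.castAdd w j ≠ Fin.natAdd o i := by
  intro h
  have := congrArg Fin.val h
  simp only [Fin.val_castAdd, Fin.val_natAdd] at this
  have := j.2
  omega

theorem yp_dir (v : Fin (o + w) → ℤ) (σ : St w) : yp w (v + dir o σ) = yp w v := by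
  funext j
  unfold yp dir
  rw [Pi.add_apply, Pi.single_eq_of_ne (ne_cn j σ.1), add_zero]

theorem yp_end4 (a : Fin (o + w) → ℤ) (s : S4 w) : yp w (end4 a s) = yp w a := by
  unfold end4
  rw [yp_dir, yp_dir, yp_dir, yp_dir]

theorem yp_mv (a : Fin (o + w) → ℤ) (m : MS o w) : yp w (mv a m) = yp w a + Pi.single m.2 1 := by
  unfold mv
  funext j
  have h := congrFun (yp_end4 a m.1) j
  unfold yp at h ⊢
  rw [Pi.add_apply, h, Pi.add_apply]
  congr 1
  unfold up
  by_cases hj : j = m.2
  · subst hj; rw [Pi.single_eq_same, Pi.single_eq_same]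
  · rw [Pi.single_eq_of_ne hj, Pi.single_eq_of_ne]
    intro h
    exact hj (Fin.castAdd_injective o w h)

theorem lev_mv (a : Fin (o + w) → ℤ) (m : MS o w) : lev w (mv a m) = lev w a + 1 := by
  unfold lev
  rw [yp_mv]
  simp only [Pi.add_apply, sum_add_distrib]
  congr 1
  rw [Finset.sum_pi_single']
  simp

theorem yp_ed (v : Fin (o + w) → ℤ) (σ : St w) : yp w (ed v σ).1 = yp w v := by
  obtain ⟨i, b⟩ := σ
  cases b
  · exact yp_dir v _
  · rfl

theorem yp_W4 (a : Fin (o + w) → ℤ) (s : S4 w) (e : Edge (o + w)) (he : e ∈ W4 a s) :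
    yp w e.1 = yp w a := by
  classical
  unfold W4 at he
  simp only [mem_insert, mem_singleton] at he
  rcases he with rfl | rfl | rfl | rfl
  · rw [yp_ed]
  · rw [yp_ed, yp_dir]
  · rw [yp_ed, yp_dir, yp_dir]
  · rw [yp_ed, yp_dir, yp_dir, yp_dir]

theorem yp_ME (a : Fin (o + w) → ℤ) (m : MS o w) (e : Edge (o + w)) (he : e ∈ ME a m) :
    yp w e.1 = yp w a := by
  classical
  unfold ME at he
  rcases mem_insert.mp he with rfl | he
  · exact yp_end4 a m.1
  · exact yp_W4 a m.1 e he

theorem W4_snd (a : Fin (o + w) → ℤ) (s : S4 w) (e : Edge (o + w)) (he : e ∈ W4 a s) :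
    ∃ i, e.2 = Fin.natAdd o i := by
  classical
  have h : ∀ (v : Fin (o + w) → ℤ) (σ : St w), ∃ i, (ed v σ).2 = Fin.natAdd o i := by
    rintro v ⟨i, b⟩
    cases b
    · exact ⟨i, rfl⟩
    · exact ⟨i, rfl⟩
  unfold W4 at he
  simp only [mem_insert, mem_singleton] at he
  rcases he with rfl | rfl | rfl | rfl <;> exact h _ _

theorem ME_disj {a b : Fin (o + w) → ℤ} (h : yp w a ≠ yp w b) (m m' : MS o w) :
    open Classical in (ME a m ∩ ME b m') = ∅ := by
  classical
  rw [← disjoint_iff_inter_eq_empty, disjoint_left]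
  intro e h1 h2
  exact h ((yp_ME a m e h1).symm.trans (yp_ME b m' e h2))

open Classical in
theorem ME_card (a b : Fin (o + w) → ℤ) (m m' : MS o w) {c : ℝ} (hc : 1 ≤ c) :
    c ^ (ME a m ∩ ME b m').card ≤ c ^ (W4 a m.1 ∩ W4 b m'.1).card *
      (if m.2 = m'.2 then (1 + c * (if end4 a m.1 = end4 b m'.1 then 1 else 0)) else 1) := by
  have h1 : ME a m ∩ ME b m' ⊆ (W4 a m.1 ∩ W4 b m'.1) ∪
      (if m.2 = m'.2 ∧ end4 a m.1 = end4 b m'.1 then {(end4 a m.1, Fin.castAdd w m.2)} else ∅) := by
    intro e he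
    obtain ⟨h2, h3⟩ := mem_inter.mp he
    unfold ME at h2 h3
    rw [mem_insert] at h2 h3
    rw [mem_union]
    rcases h2 with h2 | h2 <;> rcases h3 with h3 | h3
    · right
      have h4 := h2.symm.trans h3
      have h5 : end4 a m.1 = end4 b m'.1 := (Prod.mk.inj h4).1
      have h6 : m.2 = m'.2 := Fin.castAdd_injective o w (Prod.mk.inj h4).2
      rw [if_pos ⟨h6, h5⟩, h2]
      exact mem_singleton_self _
    · exfalso
      obtain ⟨i, hi⟩ := W4_snd _ _ _ h3
      rw [h2] at hi
      exact ne_cn _ _ hi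
    · exfalso
      obtain ⟨i, hi⟩ := W4_snd _ _ _ h2
      rw [h3] at hi
      exact ne_cn _ _ hi
    · left
      exact mem_inter.mpr ⟨h2, h3⟩
  have h2 := (card_le_card h1).trans (card_union_le _ _)
  have h0 : (0 : ℝ) ≤ c ^ (W4 a m.1 ∩ W4 b m'.1).card := by positivity
  by_cases hj : m.2 = m'.2
  · rw [if_pos hj]
    by_cases he : end4 a m.1 = end4 b m'.1
    · rw [if_pos he]
      rw [if_pos ⟨hj, he⟩, card_singleton] at h2
      refine (pow_le_pow_right₀ hc h2).trans ?_
      rw [pow_succ]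
      apply mul_le_mul_of_nonneg_left _ h0
      linarith
    · rw [if_neg he]
      rw [if_neg (fun h => he h.2), card_empty, add_zero] at h2
      rw [mul_zero, add_zero, mul_one]
      exact pow_le_pow_right₀ hc h2
  · rw [if_neg hj, mul_one]
    rw [if_neg (fun h => hj h.1), card_empty, add_zero] at h2
    exact pow_le_pow_right₀ hc h2

/-- average over a macro step -/
noncomputable def avM (f : MS o w → ℝ) : ℝ := (∑ j, av4 fun s => f (s, j)) / o

theorem avM_mono {f g : MS o w → ℝ} (h : ∀ m, f m ≤ g m) : avM f ≤ avM g :=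
  div_le_div_of_nonneg_right (sum_le_sum fun _ _ => av4_mono fun _ => h _) (by positivity)

theorem avM_const (ho : 0 < o) (hw : 0 < w) (c : ℝ) : avM (fun _ : MS o w => c) = c := by
  unfold avM
  have : (o : ℝ) ≠ 0 := by positivity
  simp only [av4_const hw, sum_const, card_univ, Fintype.card_fin, nsmul_eq_mul]
  field_simp

theorem avM_add (f g : MS o w → ℝ) : avM (fun m => f m + g m) = avM f + avM g := by
  unfold avM
  simp only [av4_add, sum_add_distrib, add_div]

theorem avM_mul (c : ℝ) (f : MS o w → ℝ) : avM (fun m => c * f m) = c * avM f := by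
  unfold avM
  simp only [av4_mul, ← mul_sum, mul_div_assoc]

theorem avM_nonneg {f : MS o w → ℝ} (h : ∀ m, 0 ≤ f m) : 0 ≤ avM f :=
  div_nonneg (sum_nonneg fun _ _ => av4_nonneg fun _ => h _) (by positivity)

/-- only the direction of the upward step matters -/
theorem avM_fst (hw : 0 < w) (f : Fin o → ℝ) : avM (fun m : MS o w => f m.2) = (∑ j, f j) / o := by
  unfold avM
  simp only [av4_const hw]

/-- product form -/
theorem avM_prod (f : S4 w → ℝ) (g : Fin o → ℝ) :
    avM (fun m : MS o w => f m.1 * g m.2) = av4 f * ((∑ j, g j) / o) := by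
  unfold avM
  have : ∀ j, av4 (fun s : S4 w => f s * g j) = g j * av4 f := by
    intro j
    rw [← av4_mul]
    congr 1
    funext s
    ring
  simp only [this, ← sum_mul]
  ring

open Classical in
/-- the second moment recursion -/
noncomputable def gg (c : ℝ) : ℕ → (Fin (o + w) → ℤ) → (Fin (o + w) → ℤ) → ℝ
  | 0, _, _ => 1
  | N + 1, a, b => avM fun m : MS o w => avM fun m' : MS o w =>
      c ^ (ME a m ∩ ME b m').card * gg c N (mv a m) (mv b m')

theorem gg_nonneg {c : ℝ} (hc : 1 ≤ c) (N : ℕ) (a b : Fin (o + w) → ℤ) : 0 ≤ gg c N a b := by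
  classical
  induction N generalizing a b with
  | zero => exact zero_le_one
  | succ N ih =>
    unfold gg
    exact avM_nonneg fun m => avM_nonneg fun m' => mul_nonneg (by positivity) (ih _ _)

end Pool.Agent.TH967.MC
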