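import Pool.Agent.TH967.MC.Numer

set_option autoImplicit false

namespace Pool.Agent.TH967.MC

open Finset MeasureTheory

variable {o w : ℕ}

theorem av_int {α : Type*} [MeasurableSpace α] {ν : Measure α} {f : St w → α → ℝ}
    (h : ∀ σ, Integrable (f σ) ν) : Integrable (fun ω => av fun σ => f σ ω) ν ∧
      ∫ ω, (av fun σ => f σ ω) ∂ν = av fun σ => ∫ ω, f σ ω ∂ν := by
  unfold av
  constructor
  · exact (integrable_finsetSum _ fun σ _ => h σ).div_const _
  · rw [integral_div, integral_finsetSum _ fun σ _ => h σ]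

theorem av4_int {α : Type*} [MeasurableSpace α] {ν : Measure α} {f : S4 w → α → ℝ}
    (h : ∀ s, Integrable (f s) ν) : Integrable (fun ω => av4 fun s => f s ω) ν ∧
      ∫ ω, (av4 fun s => f s ω) ∂ν = av4 fun s => ∫ ω, f s ω ∂ν := by
  unfold av4
  have h4 := fun s1 s2 s3 => av_int (ν := ν) (f := fun s4 => f (s1, s2, s3, s4)) (fun s4 => h _)
  have h3 := fun s1 s2 => av_int (ν := ν) (f := fun s3 ω => av fun s4 => f (s1, s2, s3, s4) ω)
    (fun s3 => (h4 s1 s2 s3).1)
  have h2 := fun s1 => av_int (ν := ν) (f := fun s2 ω => av fun s3 => av fun s4 => f (s1, s2, s3, s4) ω)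
    (fun s2 => (h3 s1 s2).1)
  have h1 := av_int (ν := ν) (f := fun s1 ω => av fun s2 => av fun s3 => av fun s4 => f (s1, s2, s3, s4) ω)
    (fun s1 => (h2 s1).1)
  refine ⟨h1.1, ?_⟩
  rw [h1.2]
  congr 1; funext s1
  rw [(h2 s1).2]
  congr 1; funext s2
  rw [(h3 s1 s2).2]
  congr 1; funext s3
  exact (h4 s1 s2 s3).2

theorem avM_int {α : Type*} [MeasurableSpace α] {ν : Measure α} {f : MS o w → α → ℝ}
    (h : ∀ m, Integrable (f m) ν) : Integrable (fun ω => avM fun m => f m ω) ν ∧
      ∫ ω, (avM fun m => f m ω) ∂ν = avM fun m => ∫ ω, f m ω ∂ν := by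
  unfold avM
  have h1 := fun j => av4_int (ν := ν) (f := fun s => f (s, j)) (fun s => h _)
  constructor
  · exact (integrable_finsetSum _ fun j _ => (h1 j).1).div_const _
  · rw [integral_div, integral_finsetSum _ fun j _ => (h1 j).1]
    congr 2
    funext j
    exact (h1 j).2

open Classical in
/-- the weighted number of open walks -/
noncomputable def XX (c : ℝ) (ω : Edge (o + w) → Bool) :
    ℕ → (Fin (o + w) → ℤ) → Finset (Edge (o + w)) → ℝ
  | 0, _, A => if ∀ e ∈ A, ω e = true then c ^ A.card else 0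
  | N + 1, a, A => avM fun m : MS o w => XX c ω N (mv a m) (A ∪ ME a m)

open Classical in
/-- the second moments -/
noncomputable def YY (c : ℝ) : ℕ → (Fin (o + w) → ℤ) → Finset (Edge (o + w)) →
    (Fin (o + w) → ℤ) → Finset (Edge (o + w)) → ℝ
  | 0, _, A, _, B => c ^ (A ∩ B).card
  | N + 1, a, A, b, B => avM fun m : MS o w => avM fun m' : MS o w =>
      YY c N (mv a m) (A ∪ ME a m) (mv b m') (B ∪ ME b m')

theorem lev_ME (a : Fin (o + w) → ℤ) (m : MS o w) (e : Edge (o + w)) (he : e ∈ ME a m) :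
    lev w e.1 = lev w a := by
  unfold lev
  rw [yp_ME a m e he]

open Classical in
theorem YY_le {c : ℝ} (hc : 1 ≤ c) (N : ℕ) (a b : Fin (o + w) → ℤ) (A B : Finset (Edge (o + w)))
    (hab : lev w a = lev w b) (hA : ∀ e ∈ A, lev w e.1 < lev w a) (hB : ∀ e ∈ B, lev w e.1 < lev w b) :
    YY c N a A b B ≤ c ^ (A ∩ B).card * gg c N a b := by
  induction N generalizing a b A B with
  | zero => unfold YY gg; rw [mul_one]
  | succ N ih =>
    unfold YY gg
    rw [← avM_mul]
    refine avM_mono fun m => ?_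
    rw [← avM_mul]
    refine avM_mono fun m' => ?_
    have h1 := ih (mv a m) (mv b m') (A ∪ ME a m) (B ∪ ME b m') (by rw [lev_mv, lev_mv, hab]) ?_ ?_
    · refine h1.trans ?_
      rw [← mul_assoc, ← pow_add]
      apply mul_le_mul_of_nonneg_right _ (gg_nonneg hc N _ _)
      apply pow_le_pow_right₀ hc
      refine le_trans (card_le_card ?_) (card_union_le _ _)
      intro e he
      obtain ⟨h2, h3⟩ := mem_inter.mp he
      rw [mem_union] at h2 h3 ⊢
      rcases h2 with h2 | h2 <;> rcases h3 with h3 | h3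
      · exact Or.inl (mem_inter.mpr ⟨h2, h3⟩)
      · exfalso
        have := hA e h2
        have := lev_ME b m' e h3
        omega
      · exfalso
        have := hB e h3
        have := lev_ME a m e h2
        omega
      · exact Or.inr (mem_inter.mpr ⟨h2, h3⟩)
    · intro e he
      rw [lev_mv]
      rcases mem_union.mp he with he | he
      · have := hA e he; omega
      · have := lev_ME a m e he; omega
    · intro e he
      rw [lev_mv]
      rcases mem_union.mp he with he | he
      · have := hB e he; omega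
      · have := lev_ME b m' e he; omega

theorem adj_ed {ω : Edge (o + w) → Bool} {v : Fin (o + w) → ℤ} {σ : St w} (h : ω (ed v σ) = true) :
    Adj ω v (v + dir o σ) := (adj_iff ω _ _).mpr ⟨_, joins_ed v σ, h⟩

theorem conn_ME {ω : Edge (o + w) → Bool} {a : Fin (o + w) → ℤ} {m : MS o w}
    (h : ∀ e ∈ ME a m, ω e = true) : Relation.ReflTransGen (Adj ω) a (mv a m) := by
  classical
  have h0 : ω (end4 a m.1, Fin.castAdd w m.2) = true := h _ (by unfold ME; exact mem_insert_self _ _)
  have h' : ∀ e ∈ W4 a m.1, ω e = true := fun e he => h e (by unfold ME; exact mem_insert_of_mem he)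
  unfold W4 at h'
  simp only [mem_insert, mem_singleton, forall_eq_or_imp, forall_eq] at h'
  obtain ⟨h1, h2, h3, h4⟩ := h'
  refine ((((Relation.ReflTransGen.refl.tail (adj_ed h1)).tail (adj_ed h2)).tail (adj_ed h3)).tail
    (adj_ed h4)).tail ?_
  exact ⟨_, Or.inl ⟨h0, rfl⟩⟩

theorem avM_ne {f : MS o w → ℝ} (h : avM f ≠ 0) : ∃ m, f m ≠ 0 := by
  by_contra h1
  push Not at h1
  apply h
  unfold avM av4 av
  simp [h1]

theorem XX_conn {c : ℝ} {ω : Edge (o + w) → Bool} (N : ℕ) (a : Fin (o + w) → ℤ)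
    (A : Finset (Edge (o + w))) (h : XX c ω N a A ≠ 0) : (∀ e ∈ A, ω e = true) ∧
    ∃ v, lev w v = lev w a + N ∧ Relation.ReflTransGen (Adj ω) a v := by
  classical
  induction N generalizing a A with
  | zero =>
    unfold XX at h
    refine ⟨?_, a, by simp, Relation.ReflTransGen.refl⟩
    by_contra h1
    rw [if_neg h1] at h
    exact h rfl
  | succ N ih =>
    unfold XX at h
    obtain ⟨m, hm⟩ := avM_ne h
    obtain ⟨h1, v, h2, h3⟩ := ih _ _ hm
    refine ⟨fun e he => h1 e (mem_union_left _ he), v, ?_, ?_⟩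
    · rw [h2, lev_mv]; push_cast; ring
    · exact (conn_ME fun e he => h1 e (mem_union_right _ he)).trans h3

/-- the event that `T` is open and `Z` is closed -/
def CC {d : ℕ} (T Z : Finset (Edge d)) : Set (Edge d → Bool) :=
  {ω | (∀ e ∈ T, ω e = true) ∧ ∀ e ∈ Z, ω e = false}

theorem indic_int {α : Type*} [MeasurableSpace α] {ν : Measure α} [IsFiniteMeasure ν] {S : Set α}
    (hS : MeasurableSet S) (k : ℝ) : Integrable (fun ω => S.indicator (fun _ => k) ω) ν ∧
      ∫ ω, S.indicator (fun _ => k) ω ∂ν = k * ν.real S := by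
  refine ⟨(integrable_const k).indicator hS, ?_⟩
  rw [integral_indicator_const k hS, smul_eq_mul, mul_comm]

theorem CC_inter {d : ℕ} (T Z A : Finset (Edge d)) : open Classical in
    {ω : Edge d → Bool | ∀ e ∈ A, ω e = true} ∩ CC T Z = CC (T ∪ A) Z := by
  classical
  ext ω
  simp only [CC, Set.mem_inter_iff, Set.mem_ofPred_eq, mem_union]
  constructor
  · rintro ⟨h1, h2, h3⟩
    exact ⟨fun e he => he.elim (h2 e) (h1 e), h3⟩
  · rintro ⟨h1, h2⟩
    exact ⟨fun e he => h1 e (Or.inr he), fun e he => h1 e (Or.inl he), h2⟩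

theorem meas_open {d : ℕ} (A : Finset (Edge d)) :
    MeasurableSet {ω : Edge d → Bool | ∀ e ∈ A, ω e = true} := by
  have := meas_cyl A ∅
  simpa using this

/-- the probability of a cylinder -/
theorem prob_CC {d : ℕ} (p : unitInterval) (T Z A : Finset (Edge d)) (hTZ : Disjoint T Z)
    (hA : ∀ e ∈ A, e ∉ T ∧ e ∉ Z) :
    ((perc d p).restrict (CC T Z)).real {ω | ∀ e ∈ A, ω e = true} =
      (p : ℝ) ^ (T.card + A.card) * (1 - (p : ℝ)) ^ Z.card := by
  classical
  rw [measureReal_restrict_apply (meas_open A), CC_inter]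
  unfold CC
  rw [cyl p (T ∪ A) Z, card_union_of_disjoint]
  · rw [disjoint_left]; intro e h1 h2; exact (hA e h2).1 h1
  · rw [disjoint_union_left]
    refine ⟨hTZ, ?_⟩
    rw [disjoint_left]; intro e h1 h2; exact (hA e h1).2 h2

end Pool.Agent.TH967.MC
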