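import Pool.Agent.TH967.MC.GBound

set_option autoImplicit false

namespace Pool.Agent.TH967.MC

theorem numer (d : ℕ) (hd : 10 ^ 6 ≤ d) {c : ℝ} (hc : 1 ≤ c) (hc' : c ≤ (50 / 49) * d) :
    (1 + 4 * (c / (2 * ((d - d / 5 : ℕ) : ℝ)))) ^ 4 * (1 + 7 * 2000 / ((d / 5 : ℕ) : ℝ)) +
      c * 2000 / ((d / 5 : ℕ) : ℝ) *
      ((c / (2 * ((d - d / 5 : ℕ) : ℝ))) ^ 4 + (14 * (4 * (c / (2 * ((d - d / 5 : ℕ) : ℝ)))) ^ 4 +
        BB (c / (2 * ((d - d / 5 : ℕ) : ℝ))) 4) / (2 * ((d - d / 5 : ℕ) : ℝ))) ≤ 2000 := by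
  have hdR : (10 : ℝ) ^ 6 ≤ d := by exact_mod_cast hd
  have ho1 : (d : ℝ) ≤ 5 * ((d / 5 : ℕ) : ℝ) + 4 := by
    have : d ≤ 5 * (d / 5) + 4 := by omega
    exact_mod_cast this
  have ho2 : (200000 : ℝ) ≤ ((d / 5 : ℕ) : ℝ) := by
    have : 200000 ≤ d / 5 := by omega
    exact_mod_cast this
  have hw1 : 4 * (d : ℝ) ≤ 5 * ((d - d / 5 : ℕ) : ℝ) := by
    have : 4 * d ≤ 5 * (d - d / 5) := by omega
    exact_mod_cast this
  generalize ((d / 5 : ℕ) : ℝ) = o at *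
  generalize ((d - d / 5 : ℕ) : ℝ) = w at *
  have hw0 : 0 < w := by nlinarith
  have ho0 : 0 < o := by linarith
  obtain ⟨x, hxdef⟩ : ∃ x, x = c / (2 * w) := ⟨_, rfl⟩
  rw [← hxdef]
  have hx0 : 0 ≤ x := by rw [hxdef]; positivity
  have hx : x ≤ 0.638 := by
    rw [hxdef, div_le_iff₀ (by positivity)]
    nlinarith
  have h1 : (1 + 4 * x) ^ 4 ≤ 159.2 := by
    calc (1 + 4 * x) ^ 4 ≤ (3.552) ^ 4 := by
          apply pow_le_pow_left₀ (by positivity); linarith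
      _ ≤ 159.2 := by norm_num
  have h2 : x ^ 4 ≤ 0.1657 := by
    calc x ^ 4 ≤ (0.638) ^ 4 := by
          apply pow_le_pow_left₀ (by positivity); linarith
      _ ≤ 0.1657 := by norm_num
  have h3 : (4 * x) ^ 4 ≤ 42.5 := by
    calc (4 * x) ^ 4 ≤ (2.552) ^ 4 := by
          apply pow_le_pow_left₀ (by positivity); linarith
      _ ≤ 42.5 := by norm_num
  have h4 : BB x 4 ≤ 1100 := by
    have e : BB x 4 = (4 * x + 1) * ((4 * x + 1) * ((4 * x + 1) * ((4 * x + 1) * 0 + 9 * (4 * x) ^ 0) +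
        9 * (4 * x) ^ 1) + 9 * (4 * x) ^ 2) + 9 * (4 * x) ^ 3 := rfl
    have hy : 4 * x ≤ 2.552 := by linarith
    have hy0 : 0 ≤ 4 * x := by linarith
    rw [e]
    generalize 4 * x = y at *
    calc (y + 1) * ((y + 1) * ((y + 1) * ((y + 1) * 0 + 9 * y ^ 0) +
        9 * y ^ 1) + 9 * y ^ 2) + 9 * y ^ 3 ≤ (2.552 + 1) * ((2.552 + 1) * ((2.552 + 1) * ((2.552 + 1) * 0 + 9 * 2.552 ^ 0) +
        9 * 2.552 ^ 1) + 9 * 2.552 ^ 2) + 9 * 2.552 ^ 3 := by gcongr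
      _ ≤ 1100 := by norm_num
  have h5 : 1 + 7 * 2000 / o ≤ 1.07 := by
    have : 7 * 2000 / o ≤ 0.07 := by
      rw [div_le_iff₀ ho0]; linarith
    linarith
  have h6 : c * 2000 / o ≤ 10206 := by
    rw [div_le_iff₀ ho0]
    nlinarith
  have h7 : (14 * (4 * x) ^ 4 + BB x 4) / (2 * w) ≤ 0.00107 := by
    rw [div_le_iff₀ (by positivity)]
    nlinarith
  have h8 : 0 ≤ (14 * (4 * x) ^ 4 + BB x 4) / (2 * w) := by
    have := BB_nonneg hx0 4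
    positivity
  have h9 : 0 ≤ x ^ 4 := by positivity
  calc (1 + 4 * x) ^ 4 * (1 + 7 * 2000 / o) + c * 2000 / o * (x ^ 4 + (14 * (4 * x) ^ 4 + BB x 4) / (2 * w))
      ≤ 159.2 * 1.07 + 10206 * (0.1657 + 0.00107) := by
        apply add_le_add
        · apply mul_le_mul h1 h5 (by positivity) (by norm_num)
        · apply mul_le_mul h6 (by linarith) (by linarith) (by norm_num)
    _ ≤ 2000 := by norm_num

end Pool.Agent.TH967.MC
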