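import Pool.Agent.TH967.MC.Defs

set_option autoImplicit false

namespace Pool.Agent.TH967.MC

/-- lattice neighbours -/
def Nbr {d : ℕ} (u v : Fin d → ℤ) : Prop :=
  ∃ i, v = u + Pi.single i 1 ∨ u = v + Pi.single i 1

theorem Nbr.symm {d : ℕ} {u v : Fin d → ℤ} (h : Nbr u v) : Nbr v u := by
  obtain ⟨i, h | h⟩ := h
  · exact ⟨i, Or.inr h⟩
  · exact ⟨i, Or.inl h⟩

theorem cons_add_single_succ {d : ℕ} (a : ℤ) (u : Fin d → ℤ) (i : Fin d) :
    (Fin.cons a (u + Pi.single i 1) : Fin (d + 1) → ℤ) =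
      (Fin.cons a u : Fin (d + 1) → ℤ) + Pi.single i.succ 1 := by
  funext j
  refine Fin.cases ?_ (fun j => ?_) j
  · simp [(Fin.succ_ne_zero i).symm]
  · simp [Pi.single_apply]

theorem cons_add_single_zero {d : ℕ} (a : ℤ) (u : Fin d → ℤ) :
    (Fin.cons (a + 1) u : Fin (d + 1) → ℤ) =
      (Fin.cons a u : Fin (d + 1) → ℤ) + Pi.single 0 1 := by
  funext j
  refine Fin.cases ?_ (fun j => ?_) j
  · simp
  · simp

theorem Nbr.cons {d : ℕ} (a : ℤ) {u v : Fin d → ℤ} (h : Nbr u v) :
    Nbr (Fin.cons a u : Fin (d + 1) → ℤ) (Fin.cons a v) := by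
  obtain ⟨i, h | h⟩ := h
  · exact ⟨i.succ, Or.inl (by rw [h, cons_add_single_succ])⟩
  · exact ⟨i.succ, Or.inr (by rw [h, cons_add_single_succ])⟩

/-- position inside the layer -/
def rr (n k : ℕ) : ℕ := if (k / n) % 2 = 0 then k % n else n - 1 - k % n

theorem rr_lt {n k : ℕ} (hn : 0 < n) : rr n k < n := by
  unfold rr
  have := Nat.mod_lt k hn
  split_ifs <;> omega

theorem snake (d s : ℕ) (hs : 1 ≤ s) : ∃ γ : ℕ → (Fin d → ℤ), γ 0 = 0 ∧
    (∀ k < s ^ d, ∀ i, 0 ≤ γ k i ∧ γ k i < s) ∧
    (∀ k < s ^ d, ∀ l < s ^ d, γ k = γ l → k = l) ∧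
    (∀ k, k + 1 < s ^ d → Nbr (γ k) (γ (k + 1))) ∧
    ∀ k, k + 1 = s ^ d → ∀ h : 0 < d, γ k ⟨0, h⟩ = s - 1 := by
  induction d with
  | zero =>
    refine ⟨fun _ => 0, rfl, fun k _ i => i.elim0, fun k hk l hl _ => ?_, fun k hk => ?_,
      fun k _ h => absurd h (lt_irrefl 0)⟩
    · simp at hk hl; omega
    · simp at hk
  | succ d ih =>
    obtain ⟨γ, h0, h1, h2, h3, -⟩ := ih
    set n := s ^ d with hn
    have hn0 : 0 < n := pow_pos hs d
    have hpow : s ^ (d + 1) = s * n := by rw [pow_succ, mul_comm]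
    refine ⟨fun k => Fin.cons ((k / n : ℕ) : ℤ) (γ (rr n k)), ?_, ?_, ?_, ?_, ?_⟩
    · have : rr n 0 = 0 := by simp [rr]
      simp only [this, h0, Nat.zero_div]
      funext j
      refine Fin.cases ?_ (fun j => ?_) j <;> simp
    · intro k hk i
      rw [hpow] at hk
      refine Fin.cases ?_ (fun i => ?_) i
      · simp only [Fin.cons_zero]
        have : k / n < s := Nat.div_lt_of_lt_mul (by rwa [mul_comm] at hk)
        exact ⟨by positivity, by exact_mod_cast this⟩
      · simp only [Fin.cons_succ]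
        exact h1 _ (rr_lt hn0) i
    · intro k _ l _ hkl
      have e1 : ((k / n : ℕ) : ℤ) = ((l / n : ℕ) : ℤ) := by
        have := congrFun hkl 0
        simpa only [Fin.cons_zero] using this
      have e1' : k / n = l / n := by exact_mod_cast e1
      have e2 : γ (rr n k) = γ (rr n l) := by
        funext i
        have := congrFun hkl i.succ
        simpa only [Fin.cons_succ] using this
      have e3 := h2 _ (rr_lt hn0) _ (rr_lt hn0) e2
      unfold rr at e3
      rw [e1'] at e3
      have a1 := Nat.mod_lt k hn0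
      have a2 := Nat.mod_lt l hn0
      have e4 : k % n = l % n := by
        split_ifs at e3 <;> omega
      rw [← Nat.div_add_mod k n, ← Nat.div_add_mod l n, e1', e4]
    · intro k hk
      have a1 := Nat.mod_lt k hn0
      by_cases hc : k % n + 1 < n
      · have b1 : (k + 1) / n = k / n := by
          rw [Nat.succ_div_of_not_dvd]
          intro hd
          have := Nat.mod_eq_zero_of_dvd hd
          rw [Nat.add_mod, Nat.mod_eq_of_lt (by omega : 1 < n), Nat.mod_eq_of_lt hc] at this
          omega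
        have b2 : (k + 1) % n = k % n + 1 := by
          rw [Nat.add_mod, Nat.mod_eq_of_lt (by omega : 1 < n), Nat.mod_eq_of_lt hc]
        simp only [b1]
        apply Nbr.cons
        unfold rr
        rw [b1, b2]
        split_ifs with hp
        · exact h3 _ hc
        · have e5 : n - 1 - k % n = (n - 1 - (k % n + 1)) + 1 := by omega
          rw [e5]
          exact (h3 _ (by omega)).symm
      · have hk1 : k % n = n - 1 := by omega
        have hd : n ∣ k + 1 := by
          rw [Nat.dvd_iff_mod_eq_zero]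
          rw [← Nat.div_add_mod k n, hk1, add_assoc, Nat.sub_add_cancel hn0]
          simp
        have b1 : (k + 1) / n = k / n + 1 := Nat.succ_div_of_dvd hd
        have b2 : (k + 1) % n = 0 := Nat.mod_eq_zero_of_dvd hd
        have e6 : rr n (k + 1) = rr n k := by
          unfold rr
          rw [b1, b2, hk1]
          split_ifs <;> omega
        refine ⟨0, Or.inl ?_⟩
        rw [← cons_add_single_zero]
        show (Fin.cons (((k + 1) / n : ℕ) : ℤ) (γ (rr n (k + 1))) : Fin (d + 1) → ℤ) = _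
        rw [e6, b1]
        push_cast
        rfl
    · intro k hk _
      show (Fin.cons ((k / n : ℕ) : ℤ) (γ (rr n k)) : Fin (d + 1) → ℤ) 0 = _
      rw [Fin.cons_zero]
      rw [hpow] at hk
      have hkn : k / n = s - 1 := by
        have e7 : k = (s - 1) * n + (n - 1) := by
          have : s * n = (s - 1) * n + n := by
            nth_rewrite 1 [← Nat.sub_add_cancel hs]
            ring
          omega
        rw [e7, Nat.add_comm, Nat.add_mul_div_right _ _ hn0, Nat.div_eq_of_lt (by omega)]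
        omega
      rw [hkn]
      push_cast [Nat.cast_sub hs]
      ring

/-- the version used below: dimension at least one, with the last point in the last layer -/
theorem snake' (d s : ℕ) (hs : 1 ≤ s) : ∃ γ : ℕ → (Fin (d + 1) → ℤ), γ 0 = 0 ∧
    (∀ k < s ^ (d + 1), ∀ i, 0 ≤ γ k i ∧ γ k i < s) ∧
    (∀ k < s ^ (d + 1), ∀ l < s ^ (d + 1), γ k = γ l → k = l) ∧
    (∀ k, k + 1 < s ^ (d + 1) → Nbr (γ k) (γ (k + 1))) ∧
    (γ (s ^ (d + 1)) 0 = s ∧ Nbr (γ (s ^ (d + 1) - 1)) (γ (s ^ (d + 1)))) := by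
  obtain ⟨γ, h0, h1, h2, h3, h4⟩ := snake (d + 1) s hs
  set n := s ^ (d + 1) with hn
  have hn0 : 0 < n := pow_pos hs _
  refine ⟨fun k => if k < n then γ k else γ (n - 1) + Pi.single 0 1, ?_, ?_, ?_, ?_, ?_, ?_⟩
  · simp [hn0, h0]
  · intro k hk i
    simp only [hk, if_true]
    exact h1 k hk i
  · intro k hk l hl h
    simp only [hk, hl, if_true] at h
    exact h2 k hk l hl h
  · intro k hk
    simp only [hk, (by omega : k < n), if_true]
    exact h3 k hk
  · have := h4 (n - 1) (by omega) (Nat.succ_pos d)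
    simp only [lt_irrefl, if_false, Pi.add_apply, Pi.single_eq_same]
    have e : (⟨0, Nat.succ_pos d⟩ : Fin (d + 1)) = 0 := rfl
    rw [e] at this
    rw [this]; ring
  · simp only [lt_irrefl, if_false, (by omega : n - 1 < n), if_true]
    exact ⟨0, Or.inl rfl⟩

end Pool.Agent.TH967.MC
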