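import Pool.Agent.TH967.MC.Green

set_option autoImplicit false

namespace Pool.Agent.TH967.MC

open Finset

/-- `1 / n!`, zero for negative `n` -/
noncomputable def ifac (n : ℤ) : ℝ := if 0 ≤ n then 1 / (n.toNat.factorial : ℝ) else 0

theorem ifac_nonneg (n : ℤ) : 0 ≤ ifac n := by
  unfold ifac; split_ifs <;> positivity

theorem ifac_le_one (n : ℤ) : ifac n ≤ 1 := by
  unfold ifac
  split_ifs
  · rw [div_le_one (by positivity)]
    exact_mod_cast Nat.one_le_iff_ne_zero.mpr (Nat.factorial_ne_zero _)
  · norm_num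

theorem ifac_sub (n : ℤ) : ifac (n - 1) = n * ifac n := by
  unfold ifac
  rcases lt_trichotomy n 0 with h | h | h
  · rw [if_neg (by omega), if_neg (by omega), mul_zero]
  · subst h; norm_num
  · rw [if_pos (by omega), if_pos (by omega)]
    obtain ⟨m, rfl⟩ : ∃ m : ℕ, n = m + 1 := ⟨(n - 1).toNat, by omega⟩
    have e1 : ((m : ℤ) + 1 - 1).toNat = m := by omega
    have e2 : ((m : ℤ) + 1).toNat = m + 1 := by omega
    rw [e1, e2, Nat.factorial_succ]
    push_cast
    have : (m.factorial : ℝ) ≠ 0 := by positivity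
    have : (m : ℝ) + 1 ≠ 0 := by positivity
    field_simp

/-- transition probability, for `∑ η = t` -/
noncomputable def KK (o t : ℕ) (η : Fin o → ℤ) : ℝ :=
  ((t.factorial : ℝ) / (o : ℝ) ^ t) * ∏ j, ifac (η j)

theorem prod_ifac {o : ℕ} (η : Fin o → ℤ) (j : Fin o) :
    ∏ i, ifac ((η - Pi.single j 1 : Fin o → ℤ) i) = η j * ∏ i, ifac (η i) := by
  rw [← mul_prod_erase univ _ (mem_univ j), ← mul_prod_erase univ (fun i => ifac (η i)) (mem_univ j)]
  have e1 : (η - Pi.single j 1 : Fin o → ℤ) j = η j - 1 := by simp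
  rw [e1, ifac_sub]
  have e2 : ∏ x ∈ univ.erase j, ifac ((η - Pi.single j 1 : Fin o → ℤ) x) = ∏ x ∈ univ.erase j, ifac (η x) := by
    apply prod_congr rfl
    intro i hi
    have : i ≠ j := (mem_erase.mp hi).1
    simp [Pi.sub_apply, Pi.single_eq_of_ne this]
  rw [e2, mul_assoc]

theorem KK_le {o : ℕ} (ho : 0 < o) (t : ℕ) (η : Fin o → ℤ) (hη : ∑ j, η j = t) :
    KK o t η ≤ Mt o t := by
  have ho' : (0 : ℝ) < o := by exact_mod_cast ho
  induction t generalizing η with
  | zero =>
    unfold KK Mt
    simp only [Nat.factorial_zero, Nat.cast_one, pow_zero, div_one, one_mul]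
    exact prod_le_one (fun i _ => ifac_nonneg _) (fun i _ => ifac_le_one _)
  | succ t ih =>
    by_cases hneg : ∃ j, η j < 0
    · obtain ⟨j, hj⟩ := hneg
      have : ∏ j, ifac (η j) = 0 := by
        apply prod_eq_zero (mem_univ j)
        unfold ifac
        rw [if_neg (by omega)]
      unfold KK
      rw [this, mul_zero]
      exact Mt_nonneg _ _
    · push Not at hneg
      have hex : ∃ j, ((t / o : ℕ) : ℤ) + 1 ≤ η j := by
        by_contra hcon
        push Not at hcon
        have h1 : ∑ j, η j ≤ ∑ _j : Fin o, ((t / o : ℕ) : ℤ) := by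
          apply sum_le_sum
          intro j _
          have := hcon j
          omega
        rw [hη] at h1
        simp only [sum_const, card_univ, Fintype.card_fin, nsmul_eq_mul] at h1
        have h2 : o * (t / o) ≤ t := Nat.mul_div_le t o
        have h3 : (o : ℤ) * ((t / o : ℕ) : ℤ) ≤ t := by exact_mod_cast h2
        push_cast at h1
        push_cast at h3
        linarith
      obtain ⟨j, hj⟩ := hex
      have hjr : (((t / o : ℕ) : ℝ) + 1) ≤ (η j : ℝ) := by
        have := (Int.cast_le (R := ℝ)).mpr hj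
        simpa only [Int.cast_add, Int.cast_natCast, Int.cast_one] using this
      have hj0 : (0 : ℝ) < η j := by
        have : (0 : ℝ) ≤ ((t / o : ℕ) : ℝ) := by positivity
        linarith
      have h4 := ih (η - Pi.single j 1) (by
        simp only [Pi.sub_apply, sum_sub_distrib, hη]
        simp)
      have h5 : KK o (t + 1) η = (((t : ℝ) + 1) / (o * η j)) * KK o t (η - Pi.single j 1) := by
        unfold KK
        rw [prod_ifac, Nat.factorial_succ, pow_succ]
        push_cast
        field_simp
      rw [h5]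
      show _ ≤ Mt o t * (((t : ℝ) + 1) / (o * ((t / o : ℕ) + 1 : ℝ)))
      rw [mul_comm (Mt o t)]
      apply mul_le_mul _ h4 _ (by positivity)
      · apply div_le_div_of_nonneg_left (by positivity) (by positivity)
        exact mul_le_mul_of_nonneg_left hjr ho'.le
      · unfold KK
        exact mul_nonneg (by positivity) (prod_nonneg fun i _ => ifac_nonneg _)

/-- averages over the positive and negative unit vectors -/
noncomputable def opA {o : ℕ} (f : (Fin o → ℤ) → ℝ) (δ : Fin o → ℤ) : ℝ :=
  (∑ j, f (δ + Pi.single j 1)) / o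

noncomputable def opB {o : ℕ} (f : (Fin o → ℤ) → ℝ) (δ : Fin o → ℤ) : ℝ :=
  (∑ j, f (δ - Pi.single j 1)) / o

noncomputable def opC {o : ℕ} (f : (Fin o → ℤ) → ℝ) (δ : Fin o → ℤ) : ℝ :=
  (∑ j, ∑ j', f (δ + Pi.single j 1 - Pi.single j' 1)) / (o : ℝ) ^ 2

noncomputable def ind0 {o : ℕ} (δ : Fin o → ℤ) : ℝ := if δ = 0 then 1 else 0

theorem opC_eq {o : ℕ} : (opC (o := o)) = opA ∘ opB := by
  funext f δ
  simp only [opC, opA, opB, Function.comp]
  rw [← sum_div, div_div, sq]

theorem opC_eq' {o : ℕ} : (opC (o := o)) = opB ∘ opA := by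
  funext f δ
  simp only [opC, opA, opB, Function.comp]
  rw [← sum_div, div_div, sq, sum_comm]
  congr 1
  apply sum_congr rfl
  intro j _
  apply sum_congr rfl
  intro i _
  congr 1
  abel

theorem comm_AB {o : ℕ} : Function.Commute (opA (o := o)) opB := by
  intro f
  have h1 := congrFun (opC_eq (o := o)) f
  have h2 := congrFun (opC_eq' (o := o)) f
  simp only [Function.comp] at h1 h2
  rw [← h1, ← h2]

theorem iter_A {o : ℕ} (t : ℕ) (δ : Fin o → ℤ) :
    (opA^[t] ind0) δ = if ∑ j, (-δ) j = t then KK o t (-δ) else 0 := by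
  induction t generalizing δ with
  | zero =>
    simp only [Function.iterate_zero, id, ind0]
    by_cases h : δ = 0
    · subst h
      simp [KK, ifac]
    · rw [if_neg h]
      split_ifs with h2
      · symm
        have : ∃ j, (-δ) j < 0 := by
          by_contra hcon
          push Not at hcon
          apply h
          have h3 : ∀ j ∈ (univ : Finset (Fin o)), (-δ) j = 0 := by
            rw [← sum_eq_zero_iff_of_nonneg (fun j _ => hcon j)]
            exact_mod_cast h2
          funext j
          have := h3 j (mem_univ j)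
          simpa using this
        obtain ⟨j, hj⟩ := this
        unfold KK
        have : ∏ j, ifac ((-δ) j) = 0 := by
          apply prod_eq_zero (mem_univ j)
          unfold ifac
          rw [if_neg (by omega)]
        rw [this, mul_zero]
      · rfl
  | succ t ih =>
    rw [Function.iterate_succ_apply']
    unfold opA
    have h1 : ∀ j : Fin o, (opA^[t] ind0) (δ + Pi.single j 1) =
        if ∑ i, (-δ) i = ((t + 1 : ℕ) : ℤ) then ((t.factorial : ℝ) / (o : ℝ) ^ t) *
          (((-δ) j : ℤ) * ∏ i, ifac ((-δ) i)) else 0 := by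
      intro j
      rw [ih]
      have e1 : -(δ + Pi.single j 1) = -δ - Pi.single j 1 := by abel
      rw [e1]
      have e2 : ∑ i, (-δ - Pi.single j 1 : Fin o → ℤ) i = ∑ i, (-δ) i - 1 := by
        simp only [Pi.sub_apply, sum_sub_distrib]
        simp
      rw [e2]
      have e3 : (∑ i, (-δ) i - 1 = (t : ℤ)) ↔ (∑ i, (-δ) i = ((t + 1 : ℕ) : ℤ)) := by
        push_cast
        constructor <;> intro h <;> linarith
      simp only [e3]
      unfold KK
      rw [prod_ifac]
    show (∑ j, (opA^[t] ind0) (δ + Pi.single j 1)) / o = _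
    simp only [h1]
    split_ifs with h2
    · rw [← mul_sum, ← sum_mul]
      have e4 : ∑ j, (((-δ) j : ℤ) : ℝ) = (t : ℝ) + 1 := by
        have : ((∑ i, (-δ) i : ℤ) : ℝ) = (((t + 1 : ℕ) : ℤ) : ℝ) := by rw [h2]
        push_cast at this
        push_cast
        exact this
      rw [e4]
      unfold KK
      rw [Nat.factorial_succ, pow_succ]
      push_cast
      rcases Nat.eq_zero_or_pos o with h0 | h0
      · subst h0
        simp
      · have : (o : ℝ) ≠ 0 := by positivity
        field_simp
    · simp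

theorem iter_A_le {o : ℕ} (ho : 0 < o) (t : ℕ) (δ : Fin o → ℤ) : (opA^[t] ind0) δ ≤ Mt o t := by
  rw [iter_A]
  split_ifs with h
  · exact KK_le ho t _ h
  · exact Mt_nonneg _ _

theorem iter_C_le {o : ℕ} (ho : 0 < o) (t : ℕ) (δ : Fin o → ℤ) : (opC^[t] ind0) δ ≤ Mt o t := by
  have ho' : (0 : ℝ) < o := by exact_mod_cast ho
  rw [opC_eq', Function.Commute.comp_iterate comm_AB.symm]
  simp only [Function.comp]
  have : ∀ s : ℕ, ∀ δ : Fin o → ℤ, (opB^[s] (opA^[t] ind0)) δ ≤ Mt o t := by
    intro s
    induction s with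
    | zero => exact fun δ => iter_A_le ho t δ
    | succ s ih =>
      intro δ
      rw [Function.iterate_succ_apply']
      unfold opB
      rw [div_le_iff₀ ho']
      refine (sum_le_sum (fun j _ => ih _)).trans (le_of_eq ?_)
      simp [mul_comm]
  exact this t δ

/-- the expected number of visits to zero of the difference walk up to time `N` -/
noncomputable def UU {o : ℕ} : ℕ → (Fin o → ℤ) → ℝ
  | 0, _ => 0
  | N + 1, δ => (∑ j, ∑ j', ((if δ + Pi.single j 1 - Pi.single j' 1 = 0 then (1 : ℝ) else 0) +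
      UU N (δ + Pi.single j 1 - Pi.single j' 1))) / (o : ℝ) ^ 2

theorem UU_eq {o : ℕ} (N : ℕ) (δ : Fin o → ℤ) :
    UU N δ = ∑ t ∈ range N, (opC^[t + 1] ind0) δ := by
  induction N generalizing δ with
  | zero => simp [UU]
  | succ N ih =>
    unfold UU
    rw [sum_range_succ']
    simp only [ih]
    have e1 : ∑ t ∈ range N, (opC^[t + 1 + 1] ind0) δ =
        (∑ j, ∑ j', ∑ t ∈ range N, (opC^[t + 1] ind0) (δ + Pi.single j 1 - Pi.single j' 1)) /
          (o : ℝ) ^ 2 := by
      simp only [Function.iterate_succ_apply' opC (_ + 1)]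
      have : ∀ t, opC (opC^[t + 1] ind0) δ = (∑ j, ∑ j', (opC^[t + 1] ind0)
          (δ + Pi.single j 1 - Pi.single j' 1)) / (o : ℝ) ^ 2 := fun t => rfl
      simp only [this]
      rw [← sum_div]
      congr 1
      rw [sum_comm]
      apply sum_congr rfl
      intro j _
      rw [sum_comm]
    have e2 : (opC^[0 + 1] ind0) δ = (∑ j, ∑ j', (if δ + Pi.single j 1 - Pi.single j' 1 = 0 then (1 : ℝ) else 0)) /
        (o : ℝ) ^ 2 := rfl
    rw [e1, e2, ← add_div, ← sum_add_distrib]
    congr 1
    apply sum_congr rfl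
    intro j _
    rw [← sum_add_distrib]
    apply sum_congr rfl
    intro j' _
    rw [add_comm]

theorem UU_le {o : ℕ} (ho : 32 ≤ o) (N : ℕ) (δ : Fin o → ℤ) : UU N δ ≤ 6 / o := by
  rw [UU_eq]
  exact (sum_le_sum fun t _ => iter_C_le (by omega) (t + 1) δ).trans (sum_Mt ho N)

theorem UU_nonneg {o : ℕ} (N : ℕ) (δ : Fin o → ℤ) : 0 ≤ UU N δ := by
  induction N generalizing δ with
  | zero => exact le_rfl
  | succ N ih =>
    unfold UU
    apply div_nonneg _ (by positivity)
    refine sum_nonneg fun j _ => sum_nonneg fun j' _ => add_nonneg ?_ (ih _)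
    split_ifs <;> norm_num

end Pool.Agent.TH967.MC
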