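import Pool.Agent.TH967.MC.Box
import Pool.Agent.TH967.MC.Walk

set_option autoImplicit false

namespace Pool.Agent.TH967.MC

open Finset

variable {o w : ℕ}

/-- steps in the last `w` coordinates, with sign -/
abbrev St (w : ℕ) := Fin w × Bool

/-- the vector of a step -/
def dir (o : ℕ) {w : ℕ} (σ : St w) : Fin (o + w) → ℤ :=
  Pi.single (Fin.natAdd o σ.1) (if σ.2 then 1 else -1)

/-- the edge traversed by the step `σ` from `v` -/
def ed (v : Fin (o + w) → ℤ) (σ : St w) : Edge (o + w) :=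
  if σ.2 then (v, Fin.natAdd o σ.1) else (v + dir o σ, Fin.natAdd o σ.1)

theorem joins_ed (v : Fin (o + w) → ℤ) (σ : St w) : Joins (ed v σ) v (v + dir o σ) := by
  obtain ⟨i, b⟩ := σ
  cases b
  · right
    refine ⟨rfl, ?_⟩
    simp only [ed, dir, Bool.false_eq_true, if_false, add_assoc]
    rw [← Pi.single_add]
    simp
  · left
    exact ⟨rfl, rfl⟩

theorem dir_inj : Function.Injective (dir o (w := w)) := by
  rintro ⟨i, b⟩ ⟨i', b'⟩ h
  unfold dir at h
  have h1 := congrFun h (Fin.natAdd o i)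
  have hne : ∀ b : Bool, (if b then (1 : ℤ) else -1) ≠ 0 := by intro b; cases b <;> decide
  rw [Pi.single_eq_same] at h1
  by_cases hi : Fin.natAdd o i = Fin.natAdd o i'
  · have hi' : i = i' := (Fin.natAdd_injective w o) hi
    subst hi'
    rw [Pi.single_eq_same] at h1
    cases b <;> cases b' <;> simp_all
  · rw [Pi.single_eq_of_ne hi] at h1
    exact absurd h1 (hne b)

theorem ed_inj (v : Fin (o + w) → ℤ) : Function.Injective (ed v (o := o) (w := w)) := by
  intro σ σ' h
  have h1 := joins_ed v σ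
  have h2 := joins_ed v σ'
  rw [h] at h1
  rcases h1.eq h2 with ⟨_, b⟩ | ⟨a, b⟩
  · exact dir_inj (add_left_cancel b)
  · exact dir_inj (add_left_cancel (b.trans a))

/-- averages over one step -/
noncomputable def av (f : St w → ℝ) : ℝ := (∑ σ, f σ) / (2 * w : ℝ)

theorem av_mono {f g : St w → ℝ} (h : ∀ σ, f σ ≤ g σ) : av f ≤ av g :=
  div_le_div_of_nonneg_right (sum_le_sum fun σ _ => h σ) (by positivity)

theorem av_const (hw : 0 < w) (c : ℝ) : av (fun _ : St w => c) = c := by
  unfold av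
  have : (w : ℝ) ≠ 0 := by positivity
  simp only [sum_const, card_univ, Fintype.card_prod, Fintype.card_fin, Fintype.card_bool,
    nsmul_eq_mul]
  push_cast
  field_simp

theorem av_add (f g : St w → ℝ) : av (fun σ => f σ + g σ) = av f + av g := by
  unfold av; rw [sum_add_distrib, add_div]

theorem av_mul (c : ℝ) (f : St w → ℝ) : av (fun σ => c * f σ) = c * av f := by
  unfold av; rw [← mul_sum, mul_div_assoc]

theorem av_mul' (c : ℝ) (f : St w → ℝ) : av (fun σ => f σ * c) = av f * c := by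
  unfold av; rw [← sum_mul, div_mul_eq_mul_div]

theorem av_nonneg {f : St w → ℝ} (h : ∀ σ, 0 ≤ f σ) : 0 ≤ av f :=
  div_nonneg (sum_nonneg fun σ _ => h σ) (by positivity)

theorem sum_ind_le (v t : Fin (o + w) → ℤ) :
    ∑ σ : St w, (if v + dir o σ = t then (1 : ℝ) else 0) ≤ 1 := by
  classical
  rw [sum_ite, sum_const_zero, add_zero, sum_const, nsmul_eq_mul, mul_one]
  have : (univ.filter (fun σ : St w => v + dir o σ = t)).card ≤ 1 := by
    rw [card_le_one]
    intro a ha b hb
    simp only [mem_filter, mem_univ, true_and] at ha hb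
    exact dir_inj (add_left_cancel (ha.trans hb.symm))
  exact_mod_cast this

theorem av_ind (v t : Fin (o + w) → ℤ) :
    av (fun σ : St w => if v + dir o σ = t then (1 : ℝ) else 0) ≤ 1 / (2 * w : ℝ) :=
  div_le_div_of_nonneg_right (sum_ind_le v t) (by positivity)

open Classical in
/-- weight of an edge -/
noncomputable def kap (Φ : Finset (Edge (o + w))) (c : ℝ) (e : Edge (o + w)) : ℝ :=
  if e ∈ Φ then c else 1

open Classical in
theorem count_le (Φ : Finset (Edge (o + w))) (v : Fin (o + w) → ℤ) :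
    (univ.filter (fun σ : St w => ed v σ ∈ Φ)).card ≤ Φ.card :=
  card_le_card_of_injOn (ed v) (fun σ hσ => by simpa using hσ) (ed_inj v).injOn

/-- weighted sums over walks of `r` steps -/
noncomputable def HH (κ : Edge (o + w) → ℝ) (f : (Fin (o + w) → ℤ) → ℝ) :
    ℕ → (Fin (o + w) → ℤ) → ℝ
  | 0, v => f v
  | r + 1, v => av (fun σ : St w => κ (ed v σ) * HH κ f r (v + dir o σ))

theorem kap_nonneg (Φ : Finset (Edge (o + w))) {c : ℝ} (hc : 1 ≤ c) (e : Edge (o + w)) :
    0 ≤ kap Φ c e := by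
  unfold kap; split_ifs <;> linarith

theorem av_kap (hw : 0 < w) (Φ : Finset (Edge (o + w))) (hΦ : Φ.card ≤ 4) {c : ℝ} (hc : 1 ≤ c)
    (v : Fin (o + w) → ℤ) : av (fun σ : St w => kap Φ c (ed v σ)) ≤ 1 + 4 * (c / (2 * w)) := by
  classical
  have h1 : ∀ σ : St w, kap Φ c (ed v σ) ≤ 1 + c * (if ed v σ ∈ Φ then 1 else 0) := by
    intro σ
    unfold kap
    split_ifs <;> simp
  refine (av_mono h1).trans ?_
  rw [av_add, av_const hw, av_mul]
  have h2 : av (fun σ : St w => if ed v σ ∈ Φ then (1 : ℝ) else 0) ≤ 4 / (2 * w) := by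
    unfold av
    apply div_le_div_of_nonneg_right _ (by positivity)
    rw [sum_ite, sum_const_zero, add_zero, sum_const, nsmul_eq_mul, mul_one]
    have := (count_le Φ v).trans hΦ
    exact_mod_cast this
  have h3 := mul_le_mul_of_nonneg_left h2 (by linarith : 0 ≤ c)
  have e : c * (4 / (2 * (w : ℝ))) = 4 * (c / (2 * w)) := by ring
  linarith

theorem HH_one (hw : 0 < w) (Φ : Finset (Edge (o + w))) (hΦ : Φ.card ≤ 4) {c : ℝ} (hc : 1 ≤ c)
    (r : ℕ) (v : Fin (o + w) → ℤ) :
    HH (kap Φ c) (fun _ => 1) r v ≤ (1 + 4 * (c / (2 * w))) ^ r := by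
  induction r generalizing v with
  | zero => simp [HH]
  | succ r ih =>
    unfold HH
    have h1 : ∀ σ : St w, kap Φ c (ed v σ) * HH (kap Φ c) (fun _ => 1) r (v + dir o σ) ≤
        kap Φ c (ed v σ) * (1 + 4 * (c / (2 * w))) ^ r := fun σ =>
      mul_le_mul_of_nonneg_left (ih _) (kap_nonneg Φ hc _)
    refine (av_mono h1).trans ?_
    rw [av_mul', pow_succ, mul_comm]
    apply mul_le_mul_of_nonneg_left (av_kap hw Φ hΦ hc v)
    positivity

open Classical in
/-- walks inside `Φ` -/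
noncomputable def AA (Φ : Finset (Edge (o + w))) (x : ℝ) (τ : Fin (o + w) → ℤ) :
    ℕ → (Fin (o + w) → ℤ) → ℝ
  | 0, v => if v = τ then 1 else 0
  | r + 1, v => x * ∑ σ ∈ univ.filter (fun σ : St w => ed v σ ∈ Φ), AA Φ x τ r (v + dir o σ)

theorem AA_nonneg (Φ : Finset (Edge (o + w))) {x : ℝ} (hx : 0 ≤ x) (τ : Fin (o + w) → ℤ) (r : ℕ)
    (v : Fin (o + w) → ℤ) : 0 ≤ AA Φ x τ r v := by
  induction r generalizing v with
  | zero => unfold AA; split_ifs <;> norm_num
  | succ r ih => unfold AA; exact mul_nonneg hx (sum_nonneg fun σ _ => ih _)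

theorem AA_le (Φ : Finset (Edge (o + w))) (hΦ : Φ.card ≤ 4) {x : ℝ} (hx : 0 ≤ x)
    (τ : Fin (o + w) → ℤ) (r : ℕ) (v : Fin (o + w) → ℤ) : AA Φ x τ r v ≤ (4 * x) ^ r := by
  classical
  induction r generalizing v with
  | zero => unfold AA; split_ifs <;> norm_num
  | succ r ih =>
    unfold AA
    have h1 : ∑ σ ∈ univ.filter (fun σ : St w => ed v σ ∈ Φ), AA Φ x τ r (v + dir o σ) ≤
        4 * (4 * x) ^ r := by
      refine (sum_le_sum fun σ _ => ih _).trans ?_
      rw [sum_const, nsmul_eq_mul]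
      apply mul_le_mul_of_nonneg_right _ (by positivity)
      exact_mod_cast (count_le Φ v).trans hΦ
    calc x * _ ≤ x * (4 * (4 * x) ^ r) := mul_le_mul_of_nonneg_left h1 hx
      _ = (4 * x) ^ (r + 1) := by ring

open Classical in
/-- the end points of the edges of `Φ`, and `τ` -/
noncomputable def supp (Φ : Finset (Edge (o + w))) (τ : Fin (o + w) → ℤ) : Finset (Fin (o + w) → ℤ) :=
  insert τ (Φ.image (fun e => e.1) ∪ Φ.image (fun e => e.1 + Pi.single e.2 1))

theorem card_supp (Φ : Finset (Edge (o + w))) (hΦ : Φ.card ≤ 4) (τ : Fin (o + w) → ℤ) :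
    (supp Φ τ).card ≤ 9 := by
  classical
  unfold supp
  refine (card_insert_le _ _).trans ?_
  have h1 := card_union_le (Φ.image (fun e => e.1)) (Φ.image (fun e => e.1 + Pi.single e.2 1))
  have h2 : (Φ.image (fun e => e.1)).card ≤ 4 := card_image_le.trans hΦ
  have h3 : (Φ.image (fun e : Edge (o + w) => e.1 + Pi.single e.2 1)).card ≤ 4 :=
    card_image_le.trans hΦ
  omega

theorem mem_supp_of_joins {Φ : Finset (Edge (o + w))} {τ u v : Fin (o + w) → ℤ} {e : Edge (o + w)}
    (he : e ∈ Φ) (h : Joins e u v) : u ∈ supp Φ τ := by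
  classical
  unfold supp
  rcases h with ⟨h, _⟩ | ⟨_, h⟩
  · exact mem_insert_of_mem (mem_union_left _ (mem_image.mpr ⟨e, he, h.symm⟩))
  · exact mem_insert_of_mem (mem_union_right _ (mem_image.mpr ⟨e, he, h.symm⟩))

theorem AA_supp (Φ : Finset (Edge (o + w))) (x : ℝ) (τ : Fin (o + w) → ℤ) (r : ℕ)
    (v : Fin (o + w) → ℤ) (hv : v ∉ supp Φ τ) : AA Φ x τ r v = 0 := by
  classical
  cases r with
  | zero =>
    unfold AA
    rw [if_neg]
    rintro rfl
    exact hv (mem_insert_self _ _)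
  | succ r =>
    unfold AA
    have : univ.filter (fun σ : St w => ed v σ ∈ Φ) = ∅ := by
      rw [filter_eq_empty_iff]
      intro σ _ h
      exact hv (mem_supp_of_joins h (joins_ed v σ))
    rw [this, sum_empty, mul_zero]

theorem sum_AA (Φ : Finset (Edge (o + w))) (hΦ : Φ.card ≤ 4) {x : ℝ} (hx : 0 ≤ x)
    (τ : Fin (o + w) → ℤ) (r : ℕ) (v : Fin (o + w) → ℤ) :
    ∑ σ : St w, AA Φ x τ r (v + dir o σ) ≤ 9 * (4 * x) ^ r := by
  classical
  have h1 : ∑ σ : St w, AA Φ x τ r (v + dir o σ) =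
      ∑ σ ∈ univ.filter (fun σ : St w => v + dir o σ ∈ supp Φ τ), AA Φ x τ r (v + dir o σ) := by
    rw [sum_filter]
    apply sum_congr rfl
    intro σ _
    split_ifs with h
    · rfl
    · exact AA_supp Φ x τ r _ h
  rw [h1]
  refine (sum_le_sum fun σ _ => AA_le Φ hΦ hx τ r _).trans ?_
  rw [sum_const, nsmul_eq_mul]
  apply mul_le_mul_of_nonneg_right _ (by positivity)
  have h2 : (univ.filter (fun σ : St w => v + dir o σ ∈ supp Φ τ)).card ≤ (supp Φ τ).card := by
    apply card_le_card_of_injOn (fun σ => v + dir o σ)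
    · intro σ hσ; simpa using hσ
    · intro a _ b _ h
      exact dir_inj (add_left_cancel h)
  exact_mod_cast h2.trans (card_supp Φ hΦ τ)

/-- error constants -/
noncomputable def BB (x : ℝ) : ℕ → ℝ
  | 0 => 0
  | r + 1 => (4 * x + 1) * BB x r + 9 * (4 * x) ^ r

theorem BB_nonneg {x : ℝ} (hx : 0 ≤ x) (r : ℕ) : 0 ≤ BB x r := by
  induction r with
  | zero => exact le_rfl
  | succ r ih => unfold BB; positivity

open Classical in
theorem HH_ind (hw : 0 < w) (Φ : Finset (Edge (o + w))) (hΦ : Φ.card ≤ 4) {c : ℝ} (hc : 1 ≤ c)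
    (τ : Fin (o + w) → ℤ) (r : ℕ) (v : Fin (o + w) → ℤ) :
    HH (kap Φ c) (fun u => if u = τ then 1 else 0) r v ≤
      AA Φ (c / (2 * w)) τ r v + BB (c / (2 * w)) r / (2 * w) := by
  set x : ℝ := c / (2 * w) with hx
  have hw' : (0 : ℝ) < 2 * w := by positivity
  have hx0 : 0 ≤ x := by positivity
  induction r generalizing v with
  | zero => simp [HH, AA, BB]
  | succ r ih =>
    unfold HH
    set B := BB x r / (2 * w) with hB
    have hB0 : 0 ≤ B := div_nonneg (BB_nonneg hx0 r) hw'.le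
    have h1 : ∀ σ : St w, kap Φ c (ed v σ) * HH (kap Φ c) (fun u => if u = τ then 1 else 0) r (v + dir o σ) ≤
        (if ed v σ ∈ Φ then c * (AA Φ x τ r (v + dir o σ) + B) else 0) +
          (AA Φ x τ r (v + dir o σ) + B) := by
      intro σ
      have h2 := ih (v + dir o σ)
      have h3 : 0 ≤ AA Φ x τ r (v + dir o σ) + B := add_nonneg (AA_nonneg Φ hx0 τ r _) hB0
      unfold kap at h2 ⊢
      split_ifs with h4
      · exact le_add_of_le_of_nonneg (mul_le_mul_of_nonneg_left h2 (by linarith)) h3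
      · rw [one_mul, zero_add]; exact h2
    refine (av_mono h1).trans ?_
    rw [av_add, av_add, av_const hw]
    have h5 : av (fun σ : St w => if ed v σ ∈ Φ then c * (AA Φ x τ r (v + dir o σ) + B) else 0) ≤
        AA Φ x τ (r + 1) v + 4 * x * B := by
      unfold av
      rw [← sum_filter, ← mul_sum, sum_add_distrib, sum_const, nsmul_eq_mul]
      have e1 : AA Φ x τ (r + 1) v =
          x * ∑ σ ∈ univ.filter (fun σ : St w => ed v σ ∈ Φ), AA Φ x τ r (v + dir o σ) := rfl
      rw [e1, mul_div_right_comm, ← hx, mul_add]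
      apply add_le_add le_rfl
      have h6 : ((univ.filter (fun σ : St w => ed v σ ∈ Φ)).card : ℝ) ≤ 4 := by
        exact_mod_cast (count_le Φ v).trans hΦ
      have := mul_le_mul_of_nonneg_right h6 hB0
      nlinarith
    have h7 : av (fun σ : St w => AA Φ x τ r (v + dir o σ)) ≤ 9 * (4 * x) ^ r / (2 * w) :=
      div_le_div_of_nonneg_right (sum_AA Φ hΦ hx0 τ r v) hw'.le
    have e2 : BB x (r + 1) / (2 * w) = 4 * x * B + B + 9 * (4 * x) ^ r / (2 * w) := by
      rw [hB]
      show ((4 * x + 1) * BB x r + 9 * (4 * x) ^ r) / (2 * w) = _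
      ring
    rw [e2]
    linarith

end Pool.Agent.TH967.MC
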